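import Mathlib

/-!
# The Thomas-Fermi interaction energy is not superadditive: definitions of the statement
-/

open MeasureTheory Set Metric

open scoped ENNReal

namespace Pool.H85.MV.NotSuperadditive

/-- Three-dimensional Euclidean space. -/
abbrev E3 := EuclideanSpace ℝ (Fin 3)

/-- The Thomas-Fermi functional `ξ(ρ)` for nuclei at `R₁, …, R_k` with charges `z₁, …, z_k`:
`(3/5)∫ρ^{5/3} - ∫Vρ + (1/2)∬ρ(x)ρ(y)/|x-y| + U` with `V(x) = ∑ z_j/|x-R_j|` and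
`U = ∑_{i<j} z_i z_j/|R_i-R_j|`. -/
noncomputable def tfFunctional {k : ℕ} (R : Fin k → E3) (z : Fin k → ℝ) (ρ : E3 → ℝ) : ℝ :=
  3 / 5 * (∫ x, ρ x ^ ((5:ℝ) / 3)) - (∫ x, (∑ j, z j / dist x (R j)) * ρ x)
    + 1 / 2 * (∫ x, ∫ y, ρ x * ρ y / dist x y)
    + ∑ i, ∑ j, if i < j then z i * z j / dist (R i) (R j) else 0

/-- The admissible densities with `N` electrons: `ρ ≥ 0`, `∫ρ < ∞`, `∫ρ^{5/3} < ∞`, `∫ρ = N`. -/
structure Admissible (N : ℝ) (ρ : E3 → ℝ) : Prop where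
  nonneg : ∀ x, 0 ≤ ρ x
  int : Integrable ρ
  int53 : Integrable (fun x => ρ x ^ ((5:ℝ) / 3))
  mass : ∫ x, ρ x = N

/-- The neutral Thomas-Fermi energy `e(z)` of the molecule. -/
noncomputable def tfEnergy {k : ℕ} (R : Fin k → E3) (z : Fin k → ℝ) : ℝ :=
  sInf {E : ℝ | ∃ ρ : E3 → ℝ, Admissible (∑ j, z j) ρ ∧ E = tfFunctional R z ρ}

/-- The neutral Thomas-Fermi energy `e^at(z)` of an atom of charge `z` (one nucleus, at `0`). -/
noncomputable def atomicEnergy (z : ℝ) : ℝ :=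
  tfEnergy (fun _ : Fin 1 => (0 : E3)) (fun _ => z)

/-- The function `e - ẽ` with `ẽ(z) = ∑ e^at(z_j)`. -/
noncomputable def interaction {k : ℕ} (R : Fin k → E3) (z : Fin k → ℝ) : ℝ :=
  tfEnergy R z - ∑ j, atomicEnergy (z j)

end Pool.H85.MV.NotSuperadditive
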