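import Mathlib
import Pool.Agent.H85.MV.NotSuperadditiveDefs

/-!
# The Thomas-Fermi interaction energy is not superadditive: the proof
-/

open MeasureTheory Set Metric

open scoped ENNReal

namespace Pool.H85.MV.NotSuperadditive

/-- `ℝ³` in coordinates. -/
lemma lintegral_E3 (G : ℝ × (ℝ × ℝ) → ℝ≥0∞) (hG : Measurable G) :
    ∫⁻ y : E3, G (y 0, (y 1, y 2)) = ∫⁻ t : ℝ, ∫⁻ q : ℝ × ℝ, G (t, q) := by
  have h1 := (PiLp.volume_preserving_ofLp (Fin 3))
  have h2 := volume_preserving_piFinSuccAbove (fun _ : Fin 3 => ℝ) 0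
  have h3 := volume_preserving_finTwoArrow ℝ
  have h4 : MeasurePreserving (Prod.map id (MeasurableEquiv.finTwoArrow (α := ℝ)))
      (volume : Measure (ℝ × (Fin 2 → ℝ))) (volume : Measure (ℝ × (ℝ × ℝ))) :=
    (MeasurePreserving.id volume).prod h3
  have h5 := h4.comp (h2.comp h1)
  have h6 := h5.lintegral_comp hG
  rw [← lintegral_prod G hG.aemeasurable]
  exact h6

/-- polar coordinates, iterated form -/
lemma lintegral_polar (f : ℝ × ℝ → ℝ≥0∞) (hf : Measurable f) :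
    ∫⁻ q : ℝ × ℝ, f q = ∫⁻ r in Ioi (0:ℝ), ∫⁻ θ in Ioo (-Real.pi) Real.pi,
      ENNReal.ofReal r * f (r * Real.cos θ, r * Real.sin θ) := by
  rw [← lintegral_comp_polarCoord_symm, polarCoord_target, Measure.volume_eq_prod,
    ← Measure.prod_restrict, lintegral_prod]
  · rfl
  · have : Measurable (fun p : ℝ × ℝ => polarCoord.symm p) :=
      continuous_polarCoord_symm.measurable
    have h : Measurable (fun p : ℝ × ℝ => ENNReal.ofReal p.1 • f (polarCoord.symm p)) := by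
      simp only [smul_eq_mul]
      exact (ENNReal.measurable_ofReal.comp measurable_fst).mul (hf.comp this)
    exact h.aemeasurable

/-- planar radial integral -/
lemma lintegral_plane_radial (F : ℝ → ℝ≥0∞) (hF : Measurable F) :
    ∫⁻ q : ℝ × ℝ, F (√(q.1 ^ 2 + q.2 ^ 2)) =
      ∫⁻ s : ℝ, ENNReal.ofReal (2 * Real.pi * s) * F s := by
  have hm : Measurable (fun q : ℝ × ℝ => F (√(q.1 ^ 2 + q.2 ^ 2))) := by
    apply hF.comp; fun_prop
  rw [lintegral_polar _ hm]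
  have h1 : ∀ r ∈ Ioi (0:ℝ), (∫⁻ θ in Ioo (-Real.pi) Real.pi,
      ENNReal.ofReal r * F (√((r * Real.cos θ) ^ 2 + (r * Real.sin θ) ^ 2)))
      = ENNReal.ofReal (2 * Real.pi * r) * F r := by
    intro r hr
    have hr' : (0:ℝ) < r := hr
    have h2 : ∀ θ : ℝ, √((r * Real.cos θ) ^ 2 + (r * Real.sin θ) ^ 2) = r := by
      intro θ
      have : (r * Real.cos θ) ^ 2 + (r * Real.sin θ) ^ 2 = r ^ 2 := by
        have := Real.sin_sq_add_cos_sq θ
        nlinarith
      rw [this, Real.sqrt_sq hr'.le]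
    simp only [h2]
    rw [lintegral_const, Measure.restrict_apply MeasurableSet.univ, univ_inter, Real.volume_Ioo,
      mul_right_comm, ← ENNReal.ofReal_mul hr'.le]
    congr 2
    ring
  rw [setLIntegral_congr_fun measurableSet_Ioi h1]
  rw [← lintegral_indicator measurableSet_Ioi]
  apply lintegral_congr
  intro s
  by_cases hs : s ∈ Ioi (0:ℝ)
  · rw [indicator_of_mem hs]
  · rw [indicator_of_notMem hs]
    have : s ≤ 0 := not_lt.mp hs
    rw [ENNReal.ofReal_of_nonpos, zero_mul]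
    have := Real.pi_pos
    nlinarith

/-- cylindrical-polar coordinates about the first axis -/
lemma lintegral_axial (F : ℝ × ℝ → ℝ≥0∞) (hF : Measurable F) :
    ∫⁻ y : E3, F (y 0, √(y 1 ^ 2 + y 2 ^ 2)) =
      ∫⁻ r in Ioi (0:ℝ), ∫⁻ θ in Ioo (-Real.pi) Real.pi,
        ENNReal.ofReal r * (ENNReal.ofReal (2 * Real.pi * (r * Real.sin θ)) *
          F (r * Real.cos θ, r * Real.sin θ)) := by
  have h0 := lintegral_E3 (fun p => F (p.1, √(p.2.1 ^ 2 + p.2.2 ^ 2)))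
    (by apply hF.comp; fun_prop)
  simp only at h0
  rw [h0]
  have h1 : ∀ t : ℝ, ∫⁻ q : ℝ × ℝ, F (t, √(q.1 ^ 2 + q.2 ^ 2)) =
      ∫⁻ s : ℝ, ENNReal.ofReal (2 * Real.pi * s) * F (t, s) := by
    intro t
    exact lintegral_plane_radial (fun s => F (t, s)) (by fun_prop)
  simp only [h1]
  have h2 : Measurable (fun p : ℝ × ℝ => ENNReal.ofReal (2 * Real.pi * p.2) * F p) := by
    fun_prop
  have h3 := lintegral_prod (μ := (volume : Measure ℝ)) (ν := (volume : Measure ℝ)) _ h2.aemeasurable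
  rw [← h3, ← Measure.volume_eq_prod, lintegral_polar _ h2]

lemma norm_E3 (y : E3) : ‖y‖ = √(y 0 ^ 2 + √(y 1 ^ 2 + y 2 ^ 2) ^ 2) := by
  rw [EuclideanSpace.norm_eq, Real.sq_sqrt (by positivity)]
  simp [Fin.sum_univ_three, add_assoc]

lemma sq_polar (r θ : ℝ) : (r * Real.cos θ) ^ 2 + (r * Real.sin θ) ^ 2 = r ^ 2 := by
  have := Real.sin_sq_add_cos_sq θ
  nlinarith

/-- radial weight times an axially symmetric kernel -/
lemma lintegral_radial_axial (g : ℝ → ℝ≥0∞) (hg : Measurable g) (k : ℝ × ℝ → ℝ≥0∞)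
    (hk : Measurable k) :
    ∫⁻ y : E3, g ‖y‖ * k (y 0, √(y 1 ^ 2 + y 2 ^ 2)) =
      ∫⁻ r in Ioi (0:ℝ), ENNReal.ofReal (2 * Real.pi * r ^ 2) * g r *
        ∫⁻ θ in Ioo (-Real.pi) Real.pi, ENNReal.ofReal (Real.sin θ) *
          k (r * Real.cos θ, r * Real.sin θ) := by
  have h0 := lintegral_axial (fun p => g (√(p.1 ^ 2 + p.2 ^ 2)) * k p)
    (by apply Measurable.mul _ hk; apply hg.comp; fun_prop)
  simp only at h0
  have h1 : ∀ y : E3, g ‖y‖ * k (y 0, √(y 1 ^ 2 + y 2 ^ 2)) =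
      g (√(y 0 ^ 2 + √(y 1 ^ 2 + y 2 ^ 2) ^ 2)) * k (y 0, √(y 1 ^ 2 + y 2 ^ 2)) := by
    intro y; rw [norm_E3 y]
  simp only [h1]
  rw [h0]
  apply setLIntegral_congr_fun measurableSet_Ioi
  intro r hr
  have hr' : (0:ℝ) < r := hr
  simp only
  rw [← lintegral_const_mul _ (by fun_prop)]
  apply lintegral_congr
  intro θ
  rw [sq_polar, Real.sqrt_sq hr'.le, show 2 * Real.pi * (r * Real.sin θ) =
    (2 * Real.pi * r) * Real.sin θ by ring, ENNReal.ofReal_mul (by positivity),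
    show 2 * Real.pi * r ^ 2 = r * (2 * Real.pi * r) by ring, ENNReal.ofReal_mul hr'.le]
  ring

lemma inner_theta (a r : ℝ) (ha : 0 < a) (hr : 0 < r) (hne : a ≠ r) :
    ∫⁻ θ in Ioo (-Real.pi) Real.pi, ENNReal.ofReal (Real.sin θ) *
      ENNReal.ofReal ((√((a - r * Real.cos θ) ^ 2 + (r * Real.sin θ) ^ 2))⁻¹) =
    ENNReal.ofReal (2 / max a r) := by
  have hpos : ∀ θ : ℝ, 0 < a ^ 2 + r ^ 2 - 2 * a * r * Real.cos θ := by
    intro θ
    have h1 : Real.cos θ ≤ 1 := Real.cos_le_one θ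
    have h2 : 0 < (a - r) ^ 2 := by
      have : a - r ≠ 0 := sub_ne_zero.mpr hne
      positivity
    nlinarith [mul_pos ha hr]
  have hexp : ∀ θ : ℝ, (a - r * Real.cos θ) ^ 2 + (r * Real.sin θ) ^ 2 =
      a ^ 2 + r ^ 2 - 2 * a * r * Real.cos θ := by
    intro θ
    have := sq_polar r θ
    nlinarith
  set Ψ : ℝ → ℝ := fun θ => √(a ^ 2 + r ^ 2 - 2 * a * r * Real.cos θ) with hΨ
  have hΨpos : ∀ θ, 0 < Ψ θ := fun θ => Real.sqrt_pos.mpr (hpos θ)
  -- derivative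
  have hder : ∀ θ : ℝ, HasDerivAt (fun θ => Ψ θ / (a * r)) (Real.sin θ * (Ψ θ)⁻¹) θ := by
    intro θ
    have h1 : HasDerivAt (fun θ => a ^ 2 + r ^ 2 - 2 * a * r * Real.cos θ)
        (2 * a * r * Real.sin θ) θ := by
      have := ((Real.hasDerivAt_cos θ).const_mul (2 * a * r)).const_sub (a ^ 2 + r ^ 2)
      have e : -(2 * a * r * -Real.sin θ) = 2 * a * r * Real.sin θ := by ring
      rw [e] at this
      exact this
    have h2 := (h1.sqrt (hpos θ).ne').div_const (a * r)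
    have e : 2 * a * r * Real.sin θ / (2 * √(a ^ 2 + r ^ 2 - 2 * a * r * Real.cos θ)) / (a * r) =
        Real.sin θ * (Ψ θ)⁻¹ := by
      have h3 : √(a ^ 2 + r ^ 2 - 2 * a * r * Real.cos θ) = Ψ θ := rfl
      rw [h3]
      have h4 := (hΨpos θ).ne'
      field_simp
    rw [e] at h2
    exact h2
  have hcont : Continuous (fun θ => Real.sin θ * (Ψ θ)⁻¹) := by
    apply Real.continuous_sin.mul
    apply Continuous.inv₀
    · simp only [hΨ]; fun_prop
    · intro θ; exact (hΨpos θ).ne'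
  have hint : ∫ θ in (0:ℝ)..Real.pi, Real.sin θ * (Ψ θ)⁻¹ = 2 / max a r := by
    rw [intervalIntegral.integral_eq_sub_of_hasDerivAt (fun θ _ => hder θ)
      (hcont.intervalIntegrable _ _)]
    have e1 : Ψ Real.pi = a + r := by
      simp only [hΨ, Real.cos_pi]
      rw [show a ^ 2 + r ^ 2 - 2 * a * r * -1 = (a + r) ^ 2 by ring, Real.sqrt_sq (by positivity)]
    have e2 : Ψ 0 = |a - r| := by
      simp only [hΨ, Real.cos_zero]
      rw [show a ^ 2 + r ^ 2 - 2 * a * r * 1 = (a - r) ^ 2 by ring, Real.sqrt_sq_eq_abs]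
    rw [e1, e2]
    rcases le_total a r with h | h
    · rw [max_eq_right h, abs_of_nonpos (by linarith)]
      field_simp
      ring
    · rw [max_eq_left h, abs_of_nonneg (by linarith)]
      field_simp
      ring
  -- split off the part where sin is negative
  have hsplit : ∫⁻ θ in Ioo (-Real.pi) Real.pi, ENNReal.ofReal (Real.sin θ) *
      ENNReal.ofReal ((√((a - r * Real.cos θ) ^ 2 + (r * Real.sin θ) ^ 2))⁻¹) =
      ∫⁻ θ in Ioc 0 Real.pi, ENNReal.ofReal (Real.sin θ * (Ψ θ)⁻¹) := by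
    rw [← lintegral_indicator measurableSet_Ioo, ← lintegral_indicator measurableSet_Ioc]
    apply lintegral_congr
    intro θ
    have key : ENNReal.ofReal (Real.sin θ) *
      ENNReal.ofReal ((√((a - r * Real.cos θ) ^ 2 + (r * Real.sin θ) ^ 2))⁻¹) =
      ENNReal.ofReal (Real.sin θ * (Ψ θ)⁻¹) := by
      rw [hexp, ENNReal.ofReal_mul' (by have := (hΨpos θ).le; positivity)]
    by_cases h1 : θ ∈ Ioo (-Real.pi) Real.pi
    · rw [indicator_of_mem h1]
      by_cases h2 : θ ∈ Ioc 0 Real.pi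
      · rw [indicator_of_mem h2, key]
      · rw [indicator_of_notMem h2, key]
        have h3 : θ ≤ 0 := by
          by_contra hcon
          exact h2 ⟨not_le.mp hcon, h1.2.le⟩
        have h4 : Real.sin θ ≤ 0 := Real.sin_nonpos_of_nonpos_of_neg_pi_le h3 h1.1.le
        rw [ENNReal.ofReal_of_nonpos]
        exact mul_nonpos_of_nonpos_of_nonneg h4 (inv_nonneg.mpr (hΨpos θ).le)
    · rw [indicator_of_notMem h1]
      by_cases h2 : θ ∈ Ioc 0 Real.pi
      · rw [indicator_of_mem h2]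
        have h3 : θ = Real.pi := by
          by_contra hcon
          exact h1 ⟨by linarith [h2.1, Real.pi_pos], lt_of_le_of_ne h2.2 hcon⟩
        rw [h3, Real.sin_pi]; simp
      · rw [indicator_of_notMem h2]
  rw [hsplit, ← hint, intervalIntegral.integral_of_le Real.pi_pos.le,
    ofReal_integral_eq_lintegral_ofReal]
  · exact (hcont.integrableOn_Icc (a := 0) (b := Real.pi)).mono_set Ioc_subset_Icc_self
  · filter_upwards [ae_restrict_mem measurableSet_Ioc] with θ hθ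
    exact mul_nonneg (Real.sin_nonneg_of_nonneg_of_le_pi hθ.1.le hθ.2) (inv_nonneg.mpr (hΨpos θ).le)

lemma inner_theta_const (c : ℝ≥0∞) :
    ∫⁻ θ in Ioo (-Real.pi) Real.pi, ENNReal.ofReal (Real.sin θ) * c = 2 * c := by
  rw [lintegral_mul_const _ (by fun_prop)]
  congr 1
  have hsplit : ∫⁻ θ in Ioo (-Real.pi) Real.pi, ENNReal.ofReal (Real.sin θ) =
      ∫⁻ θ in Ioc 0 Real.pi, ENNReal.ofReal (Real.sin θ) := by
    rw [← lintegral_indicator measurableSet_Ioo, ← lintegral_indicator measurableSet_Ioc]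
    apply lintegral_congr
    intro θ
    by_cases h1 : θ ∈ Ioo (-Real.pi) Real.pi
    · rw [indicator_of_mem h1]
      by_cases h2 : θ ∈ Ioc 0 Real.pi
      · rw [indicator_of_mem h2]
      · rw [indicator_of_notMem h2]
        have h3 : θ ≤ 0 := by
          by_contra hcon
          exact h2 ⟨not_le.mp hcon, h1.2.le⟩
        have h4 : Real.sin θ ≤ 0 := Real.sin_nonpos_of_nonpos_of_neg_pi_le h3 h1.1.le
        rw [ENNReal.ofReal_of_nonpos h4]
    · rw [indicator_of_notMem h1]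
      by_cases h2 : θ ∈ Ioc 0 Real.pi
      · rw [indicator_of_mem h2]
        have h3 : θ = Real.pi := by
          by_contra hcon
          exact h1 ⟨by linarith [h2.1, Real.pi_pos], lt_of_le_of_ne h2.2 hcon⟩
        rw [h3, Real.sin_pi]; simp
      · rw [indicator_of_notMem h2]
  rw [hsplit, ← ofReal_integral_eq_lintegral_ofReal]
  · rw [← intervalIntegral.integral_of_le Real.pi_pos.le, integral_sin]
    norm_num
  · exact (Real.continuous_sin.integrableOn_Icc (a := 0) (b := Real.pi)).mono_set Ioc_subset_Icc_self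
  · filter_upwards [ae_restrict_mem measurableSet_Ioc] with θ hθ
    exact Real.sin_nonneg_of_nonneg_of_le_pi hθ.1.le hθ.2

/-- Newton's theorem on an axis. -/
lemma newton_axis (g : ℝ → ℝ≥0∞) (hg : Measurable g) (a : ℝ) (ha : 0 < a) :
    ∫⁻ y : E3, g ‖y‖ * ENNReal.ofReal ((√((a - y 0) ^ 2 + √(y 1 ^ 2 + y 2 ^ 2) ^ 2))⁻¹) =
    ∫⁻ y : E3, g ‖y‖ * ENNReal.ofReal ((max a ‖y‖)⁻¹) := by
  have h1 := lintegral_radial_axial g hg
    (fun p => ENNReal.ofReal ((√((a - p.1) ^ 2 + p.2 ^ 2))⁻¹)) (by fun_prop)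
  have h2 := lintegral_radial_axial g hg
    (fun p => ENNReal.ofReal ((max a (√(p.1 ^ 2 + p.2 ^ 2)))⁻¹)) (by fun_prop)
  simp only at h1 h2
  have h3 : ∀ y : E3, g ‖y‖ * ENNReal.ofReal ((max a ‖y‖)⁻¹) =
    g ‖y‖ * ENNReal.ofReal ((max a (√(y 0 ^ 2 + √(y 1 ^ 2 + y 2 ^ 2) ^ 2)))⁻¹) := by
    intro y; rw [← norm_E3 y]
  simp only [h3]
  rw [h1, h2]
  have hne : ∀ᵐ r ∂(volume.restrict (Ioi (0:ℝ))), r ≠ a := by
    apply ae_restrict_of_ae
    exact Measure.ae_ne volume a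
  apply lintegral_congr_ae
  filter_upwards [hne, ae_restrict_mem measurableSet_Ioi] with r hr hr0
  have hr' : (0:ℝ) < r := hr0
  congr 1
  rw [inner_theta a r ha hr' (Ne.symm hr)]
  have : ∀ θ : ℝ, √((r * Real.cos θ) ^ 2 + (r * Real.sin θ) ^ 2) = r := by
    intro θ; rw [sq_polar, Real.sqrt_sq hr'.le]
  simp only [this]
  rw [inner_theta_const, show (2:ℝ≥0∞) = ENNReal.ofReal 2 by simp, ← ENNReal.ofReal_mul (by norm_num)]
  rfl

/-- Newton's theorem. -/
lemma newton (g : ℝ → ℝ≥0∞) (hg : Measurable g) (x : E3) :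
    ∫⁻ y : E3, g ‖y‖ * ENNReal.ofReal ((dist x y)⁻¹) =
    ∫⁻ y : E3, g ‖y‖ * ENNReal.ofReal ((max ‖x‖ ‖y‖)⁻¹) := by
  rcases eq_or_ne x 0 with hx | hx
  · subst hx
    simp
  have ha : 0 < ‖x‖ := norm_pos_iff.mpr hx
  set e : E3 := EuclideanSpace.single 0 ‖x‖ with he
  have hnorm : ‖x‖ = ‖e‖ := by simp [he]
  set φ := Submodule.reflection (ℝ ∙ (x - e))ᗮ with hφ
  have hφx : φ x = e := Submodule.reflection_sub hnorm
  have hmp : MeasurePreserving φ (volume : Measure E3) volume := φ.measurePreserving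
  rw [← newton_axis g hg ‖x‖ ha]
  have hm : Measurable (fun y : E3 => g ‖y‖ *
      ENNReal.ofReal ((√((‖x‖ - y 0) ^ 2 + √(y 1 ^ 2 + y 2 ^ 2) ^ 2))⁻¹)) := by
    fun_prop
  rw [← hmp.lintegral_comp hm]
  apply lintegral_congr
  intro y
  have h1 : ‖φ y‖ = ‖y‖ := φ.norm_map y
  have h2 : dist x y = √((‖x‖ - (φ y) 0) ^ 2 + √((φ y) 1 ^ 2 + (φ y) 2 ^ 2) ^ 2) := by
    rw [← φ.dist_map x y, hφx, EuclideanSpace.dist_eq, Real.sq_sqrt (by positivity)]
    congr 1
    simp [Fin.sum_univ_three, he, Real.dist_eq, sq_abs, add_assoc]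
  rw [h1, h2]

/-- Coulomb kernel -/
noncomputable def K (x y : E3) : ℝ≥0∞ := ENNReal.ofReal ((dist x y)⁻¹)

lemma measurable_K : Measurable (fun p : E3 × E3 => K p.1 p.2) := by
  unfold K; fun_prop

lemma K_comm (x y : E3) : K x y = K y x := by unfold K; rw [dist_comm]

/-- potential -/
noncomputable def U (f : E3 → ℝ≥0∞) (x : E3) : ℝ≥0∞ := ∫⁻ y, f y * K x y

/-- Coulomb form -/
noncomputable def D (f g : E3 → ℝ≥0∞) : ℝ≥0∞ := ∫⁻ x, f x * U g x

lemma measurable_U {f : E3 → ℝ≥0∞} (hf : Measurable f) : Measurable (U f) := by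
  unfold U
  apply Measurable.lintegral_prod_right'
    (f := fun p : E3 × E3 => f p.2 * K p.1 p.2)
  exact (hf.comp measurable_snd).mul measurable_K

/-- the Gaussian weight -/
noncomputable def G (p : ℝ × E3) (x : E3) : ℝ≥0∞ :=
  ENNReal.ofReal (Real.exp (-(2 * p.1 ^ 2) * ‖x - p.2‖ ^ 2))

lemma measurable_G : Measurable (fun q : (ℝ × E3) × E3 => G q.1 q.2) := by
  unfold G; fun_prop

lemma measurable_G1 (x : E3) : Measurable (fun p : ℝ × E3 => G p x) := by
  unfold G; fun_prop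

lemma measurable_G2 (p : ℝ × E3) : Measurable (fun x => G p x) := by
  unfold G; fun_prop

lemma measurable_G3 : Measurable (fun q : E3 × (ℝ × E3) => G q.2 q.1) := by
  unfold G; fun_prop

/-- normalisation -/
noncomputable def kap (p : ℝ × E3) : ℝ≥0∞ :=
  ENNReal.ofReal (2 / √Real.pi * ((Real.pi / (4 * p.1 ^ 2)) ^ ((3:ℝ) / 2))⁻¹)

lemma measurable_kap : Measurable kap := by
  unfold kap
  fun_prop

noncomputable def mu0 : Measure (ℝ × E3) := (volume.restrict (Ioi (0:ℝ))).prod volume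

instance : SigmaFinite mu0 := by unfold mu0; infer_instance

lemma gauss_conv (t : ℝ) (ht : 0 < t) (x y : E3) :
    ∫⁻ w : E3, G (t, w) x * G (t, w) y =
      ENNReal.ofReal ((Real.pi / (4 * t ^ 2)) ^ ((3:ℝ) / 2)) *
      ENNReal.ofReal (Real.exp (-(t ^ 2) * ‖x - y‖ ^ 2)) := by
  have hpt : ∀ w : E3, G (t, w) x * G (t, w) y =
      ENNReal.ofReal (Real.exp (-(t ^ 2) * ‖x - y‖ ^ 2)) *
      ENNReal.ofReal (Real.exp (-(4 * t ^ 2) * ‖w - (1/2 : ℝ) • (x + y)‖ ^ 2)) := by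
    intro w
    unfold G
    simp only
    rw [← ENNReal.ofReal_mul (Real.exp_pos _).le, ← Real.exp_add,
      ← ENNReal.ofReal_mul (Real.exp_pos _).le, ← Real.exp_add]
    congr 2
    have h1 := parallelogram_law_with_norm ℝ (x - w) (y - w)
    have h2 : ‖(x - w) + (y - w)‖ ^ 2 = 4 * ‖w - (1/2 : ℝ) • (x + y)‖ ^ 2 := by
      have : (x - w) + (y - w) = (-2 : ℝ) • (w - (1/2 : ℝ) • (x + y)) := by
        module
      rw [this, norm_smul]
      norm_num
      ring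
    have h3 : (x - w) - (y - w) = x - y := by abel
    rw [h3] at h1
    rw [h2] at h1
    have h4 : ‖x - w‖ ^ 2 + ‖y - w‖ ^ 2 =
        2 * ‖w - (1/2 : ℝ) • (x + y)‖ ^ 2 + ‖x - y‖ ^ 2 / 2 := by linarith
    calc -(2 * t ^ 2) * ‖x - w‖ ^ 2 + -(2 * t ^ 2) * ‖y - w‖ ^ 2
        = -(2 * t ^ 2) * (‖x - w‖ ^ 2 + ‖y - w‖ ^ 2) := by ring
      _ = _ := by rw [h4]; ring
  simp only [hpt]
  rw [lintegral_const_mul _ (by fun_prop), mul_comm]
  congr 1
  have h5 : ∫⁻ w : E3, ENNReal.ofReal (Real.exp (-(4 * t ^ 2) * ‖w - (1/2 : ℝ) • (x + y)‖ ^ 2)) =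
      ∫⁻ w : E3, ENNReal.ofReal (Real.exp (-(4 * t ^ 2) * ‖w‖ ^ 2)) :=
    lintegral_sub_right_eq_self (fun w : E3 =>
      ENNReal.ofReal (Real.exp (-(4 * t ^ 2) * ‖w‖ ^ 2))) ((1/2 : ℝ) • (x + y))
  have h4t : (0:ℝ) < 4 * t ^ 2 := by positivity
  have h6 := GaussianFourier.integral_rexp_neg_mul_sq_norm (V := E3) h4t
  rw [h5, ← ofReal_integral_eq_lintegral_ofReal, h6]
  · simp
  · by_contra hcon
    rw [integral_undef hcon] at h6
    have : (0:ℝ) < (Real.pi / (4 * t ^ 2)) ^ (((Module.finrank ℝ E3 : ℕ) : ℝ) / 2) := by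
      have := Real.pi_pos
      positivity
    rw [← h6] at this
    exact lt_irrefl _ this
  · filter_upwards with w using (Real.exp_pos _).le

lemma K_repr (x y : E3) (hxy : x ≠ y) :
    K x y = ∫⁻ p, kap p * (G p x * G p y) ∂mu0 := by
  have hm : Measurable (fun p : ℝ × E3 => kap p * (G p x * G p y)) :=
    measurable_kap.mul ((measurable_G1 x).mul (measurable_G1 y))
  unfold mu0
  rw [lintegral_prod _ hm.aemeasurable]
  have h1 : ∀ t ∈ Ioi (0:ℝ), ∫⁻ w : E3, kap (t, w) * (G (t, w) x * G (t, w) y) =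
      ENNReal.ofReal (2 / √Real.pi) * ENNReal.ofReal (Real.exp (-(‖x - y‖ ^ 2) * t ^ 2)) := by
    intro t ht
    have ht' : (0:ℝ) < t := ht
    have hkc : ∀ w : E3, kap (t, w) = ENNReal.ofReal (2 / √Real.pi *
      ((Real.pi / (4 * t ^ 2)) ^ ((3:ℝ) / 2))⁻¹) := fun w => rfl
    simp only [hkc]
    have hpi := Real.pi_pos
    rw [lintegral_const_mul' _ _ ENNReal.ofReal_ne_top, gauss_conv t ht',
      ENNReal.ofReal_mul (by positivity), mul_assoc, ← mul_assoc (ENNReal.ofReal _⁻¹),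
      ← ENNReal.ofReal_mul (by positivity), inv_mul_cancel₀ (by positivity), ENNReal.ofReal_one,
      one_mul]
    rw [show -(t ^ 2) * ‖x - y‖ ^ 2 = -(‖x - y‖ ^ 2) * t ^ 2 by ring]
  rw [setLIntegral_congr_fun measurableSet_Ioi h1, lintegral_const_mul' _ _ ENNReal.ofReal_ne_top]
  have hd : 0 < ‖x - y‖ := norm_pos_iff.mpr (sub_ne_zero.mpr hxy)
  have h2 := integral_gaussian_Ioi (‖x - y‖ ^ 2)
  have hb : 0 < ‖x - y‖ ^ 2 := by positivity
  rw [← ofReal_integral_eq_lintegral_ofReal, h2, ← ENNReal.ofReal_mul (by positivity)]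
  · unfold K
    congr 1
    rw [dist_eq_norm, Real.sqrt_div Real.pi_pos.le, Real.sqrt_sq hd.le]
    have : √Real.pi ≠ 0 := (Real.sqrt_pos.mpr Real.pi_pos).ne'
    field_simp
  · exact (integrable_exp_neg_mul_sq hb).integrableOn
  · filter_upwards with t using (Real.exp_pos _).le

noncomputable def mu1 : Measure (ℝ × E3) := mu0.withDensity kap

/-- Gaussian transform -/
noncomputable def Phi (f : E3 → ℝ≥0∞) (p : ℝ × E3) : ℝ≥0∞ := ∫⁻ x, f x * G p x

lemma measurable_Phi {f : E3 → ℝ≥0∞} (hf : Measurable f) : Measurable (Phi f) := by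
  unfold Phi
  apply Measurable.lintegral_prod_right' (f := fun q : (ℝ × E3) × E3 => f q.2 * G q.1 q.2)
  exact (hf.comp measurable_snd).mul measurable_G

lemma U_repr {g : E3 → ℝ≥0∞} (hg : Measurable g) (x : E3) :
    U g x = ∫⁻ p, kap p * (G p x * Phi g p) ∂mu0 := by
  unfold U
  have h1 : ∫⁻ y, g y * K x y = ∫⁻ y, ∫⁻ p, g y * (kap p * (G p x * G p y)) ∂mu0 := by
    apply lintegral_congr_ae
    filter_upwards [Measure.ae_ne (volume : Measure E3) x] with y hy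
    rw [K_repr x y hy.symm, lintegral_const_mul]
    exact measurable_kap.mul ((measurable_G1 x).mul (measurable_G1 y))
  have hm : Measurable (fun q : E3 × (ℝ × E3) => g q.1 * (kap q.2 * (G q.2 x * G q.2 q.1))) := by
    have e1 : Measurable (fun q : E3 × (ℝ × E3) => g q.1) := hg.comp measurable_fst
    have e2 : Measurable (fun q : E3 × (ℝ × E3) => kap q.2) := measurable_kap.comp measurable_snd
    have e3 : Measurable (fun q : E3 × (ℝ × E3) => G q.2 x) :=
      (measurable_G1 x).comp measurable_snd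
    exact e1.mul (e2.mul (e3.mul measurable_G3))
  rw [h1, lintegral_lintegral_swap hm.aemeasurable]
  apply lintegral_congr
  intro p
  have h2 : ∫⁻ y, g y * (kap p * (G p x * G p y)) = ∫⁻ y, (kap p * G p x) * (g y * G p y) := by
    apply lintegral_congr; intro y; ring
  have h3 : Measurable (fun y => g y * G p y) := hg.mul (measurable_G2 p)
  rw [h2, lintegral_const_mul _ h3]
  unfold Phi
  ring

lemma D_repr {f g : E3 → ℝ≥0∞} (hf : Measurable f) (hg : Measurable g) :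
    D f g = ∫⁻ p, Phi f p * Phi g p ∂mu1 := by
  unfold D
  simp only [U_repr hg]
  have h2 : ∫⁻ x, f x * ∫⁻ p, kap p * (G p x * Phi g p) ∂mu0 =
      ∫⁻ x, ∫⁻ p, f x * (kap p * (G p x * Phi g p)) ∂mu0 := by
    apply lintegral_congr
    intro x
    rw [lintegral_const_mul]
    exact measurable_kap.mul ((measurable_G1 x).mul (measurable_Phi hg))
  have hm : Measurable (fun q : E3 × (ℝ × E3) => f q.1 * (kap q.2 * (G q.2 q.1 * Phi g q.2))) := by
    have e1 : Measurable (fun q : E3 × (ℝ × E3) => f q.1) := hf.comp measurable_fst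
    have e2 : Measurable (fun q : E3 × (ℝ × E3) => kap q.2) := measurable_kap.comp measurable_snd
    have e3 : Measurable (fun q : E3 × (ℝ × E3) => Phi g q.2) :=
      (measurable_Phi hg).comp measurable_snd
    exact e1.mul (e2.mul (measurable_G3.mul e3))
  rw [h2, lintegral_lintegral_swap hm.aemeasurable]
  unfold mu1
  have h4 := lintegral_withDensity_eq_lintegral_mul mu0 measurable_kap
      ((measurable_Phi hf).mul (measurable_Phi hg))
  simp only [Pi.mul_apply] at h4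
  rw [h4]
  apply lintegral_congr
  intro p
  have h3 : ∫⁻ x, f x * (kap p * (G p x * Phi g p)) = ∫⁻ x, (kap p * Phi g p) * (f x * G p x) := by
    apply lintegral_congr; intro x; ring
  have h5 : Measurable (fun y => f y * G p y) := hf.mul (measurable_G2 p)
  rw [h3, lintegral_const_mul _ h5]
  unfold Phi; ring

lemma D_comm {f g : E3 → ℝ≥0∞} (hf : Measurable f) (hg : Measurable g) : D f g = D g f := by
  rw [D_repr hf hg, D_repr hg hf]
  apply lintegral_congr; intro p; ring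

/-- Cauchy-Schwarz for the Coulomb form -/
lemma D_cs {f g : E3 → ℝ≥0∞} (hf : Measurable f) (hg : Measurable g) :
    D f g ≤ D f f ^ ((1:ℝ)/2) * D g g ^ ((1:ℝ)/2) := by
  rw [D_repr hf hg, D_repr hf hf, D_repr hg hg]
  have h := ENNReal.lintegral_mul_le_Lp_mul_Lq mu1 Real.HolderConjugate.two_two
    (measurable_Phi hf).aemeasurable (measurable_Phi hg).aemeasurable
  have e1 : ∀ f : E3 → ℝ≥0∞, ∀ p, Phi f p * Phi f p = Phi f p ^ (2:ℝ) := by
    intro f p; rw [ENNReal.rpow_two, sq]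
  simp only [e1]
  exact h

/-- If D f g = D g g and it is finite then D g g ≤ D f f. -/
lemma D_le_of_eq {f g : E3 → ℝ≥0∞} (hf : Measurable f) (hg : Measurable g)
    (h : D f g = D g g) (hfin : D g g ≠ ∞) : D g g ≤ D f f := by
  have h1 := D_cs hf hg
  rw [h] at h1
  by_cases h0 : D g g = 0
  · rw [h0]; exact zero_le
  by_contra hcon
  push Not at hcon
  have h2 : D f f ^ ((1:ℝ)/2) < D g g ^ ((1:ℝ)/2) :=
    ENNReal.rpow_lt_rpow hcon (by norm_num)
  have h3 : D f f ^ ((1:ℝ)/2) * D g g ^ ((1:ℝ)/2) < D g g ^ ((1:ℝ)/2) * D g g ^ ((1:ℝ)/2) := by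
    apply ENNReal.mul_lt_mul_left _ _ h2
    · simp [h0]
    · simp [hfin]
  have h4 : D g g ^ ((1:ℝ)/2) * D g g ^ ((1:ℝ)/2) = D g g := by
    rw [← ENNReal.rpow_add _ _ h0 hfin]; norm_num
  rw [h4] at h3
  exact absurd h1 (not_le.mpr h3)

/-- surface measure of the unit sphere -/
noncomputable def sig : Measure (sphere (0 : E3) 1) := (volume : Measure E3).toSphere

instance : IsFiniteMeasure sig := by unfold sig; infer_instance

lemma sig_ne : sig univ ≠ 0 := by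
  unfold sig
  simp [Real.pi_pos]

/-- radial average -/
noncomputable def Av (f : E3 → ℝ≥0∞) (r : ℝ) : ℝ≥0∞ :=
  (sig univ)⁻¹ * ∫⁻ ω : sphere (0 : E3) 1, f (r • (ω : E3)) ∂sig

lemma measurable_Av {f : E3 → ℝ≥0∞} (hf : Measurable f) : Measurable (Av f) := by
  unfold Av
  apply Measurable.const_mul
  apply Measurable.lintegral_prod_right' (f := fun q : ℝ × (sphere (0 : E3) 1) => f (q.1 • (q.2 : E3)))
  apply hf.comp
  fun_prop

/-- polar coordinates in ℝ³ -/
lemma lintegral_sphere (F : E3 → ℝ≥0∞) (hF : Measurable F) :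
    ∫⁻ x, F x = ∫⁻ r : Ioi (0:ℝ), ∫⁻ ω : sphere (0 : E3) 1, F ((r:ℝ) • (ω : E3)) ∂sig
      ∂(Measure.volumeIoiPow 2) := by
  have hmp := (volume : Measure E3).measurePreserving_homeomorphUnitSphereProd
  have hfr : Module.finrank ℝ E3 - 1 = 2 := by simp
  rw [hfr] at hmp
  have h1 : ∫⁻ x, F x = ∫⁻ x : ({0}ᶜ : Set E3), F x ∂((volume : Measure E3).comap (↑)) := by
    rw [lintegral_subtype_comap (measurableSet_singleton (0:E3)).compl, restrict_compl_singleton]
  have hF2 : Measurable (fun p : (sphere (0 : E3) 1) × Ioi (0:ℝ) => F ((p.2 : ℝ) • (p.1 : E3))) := by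
    apply hF.comp; fun_prop
  have h2 := hmp.lintegral_comp hF2
  rw [h1]
  have h3 : ∫⁻ x : ({0}ᶜ : Set E3), F x ∂((volume : Measure E3).comap (↑)) =
      ∫⁻ (a : ({0}ᶜ : Set E3)), F ((((homeomorphUnitSphereProd E3) a).2 : ℝ) •
        (((homeomorphUnitSphereProd E3) a).1 : E3)) ∂((volume : Measure E3).comap (↑)) := by
    apply lintegral_congr
    intro x
    congr 1
    have hx : ‖(x : E3)‖ ≠ 0 := norm_ne_zero_iff.mpr x.2
    simp [smul_smul, hx]
  rw [h3, h2, lintegral_prod_symm _ hF2.aemeasurable]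
  rfl

lemma norm_smul_sphere (r : Ioi (0:ℝ)) (ω : sphere (0 : E3) 1) : ‖(r:ℝ) • (ω : E3)‖ = r := by
  rw [norm_smul, norm_eq_of_mem_sphere]
  have : (0:ℝ) < r := r.2
  simp [abs_of_pos this]

/-- averaging does not change integrals against radial functions -/
lemma lintegral_Av (f : E3 → ℝ≥0∞) (hf : Measurable f) (h : ℝ → ℝ≥0∞) (hh : Measurable h) :
    ∫⁻ x : E3, Av f ‖x‖ * h ‖x‖ = ∫⁻ x : E3, f x * h ‖x‖ := by
  have hA := measurable_Av hf
  rw [lintegral_sphere _ (by fun_prop), lintegral_sphere _ (by fun_prop)]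
  apply lintegral_congr
  intro r
  simp only [norm_smul_sphere]
  rw [lintegral_const, lintegral_mul_const]
  · unfold Av
    rw [mul_assoc, mul_comm (h _), ← mul_assoc, mul_comm (_ * _) (sig univ), ← mul_assoc,
      ENNReal.mul_inv_cancel sig_ne (measure_ne_top _ _), one_mul]
  · apply hf.comp; fun_prop

/-- Jensen for the average -/
lemma Av_rpow_le (f : E3 → ℝ≥0∞) (hf : Measurable f) (r : ℝ) :
    Av f r ^ ((5:ℝ)/3) ≤ Av (fun x => f x ^ ((5:ℝ)/3)) r := by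
  have hm : Measurable (fun ω : sphere (0 : E3) 1 => f (r • (ω : E3))) := by
    apply hf.comp; fun_prop
  have hconj : ((5:ℝ)/3).HolderConjugate (5/2) := by
    constructor <;> norm_num
  have h := ENNReal.lintegral_mul_le_Lp_mul_Lq sig hconj hm.aemeasurable
    (g := fun _ => 1) aemeasurable_const
  simp only [Pi.mul_apply, mul_one, ENNReal.one_rpow, lintegral_const, one_mul] at h
  unfold Av
  set I := ∫⁻ ω : sphere (0 : E3) 1, f (r • (ω : E3)) ∂sig with hI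
  set J := ∫⁻ ω : sphere (0 : E3) 1, f (r • (ω : E3)) ^ ((5:ℝ)/3) ∂sig with hJ
  have hs0 := sig_ne
  have hs1 : sig univ ≠ ∞ := measure_ne_top _ _
  have h2 : I ^ ((5:ℝ)/3) ≤ J * (sig univ) ^ ((2:ℝ)/3) := by
    calc I ^ ((5:ℝ)/3) ≤ (J ^ (1 / ((5:ℝ)/3)) * (sig univ) ^ (1 / ((5:ℝ)/2))) ^ ((5:ℝ)/3) :=
          ENNReal.rpow_le_rpow h (by norm_num)
      _ = J * (sig univ) ^ ((2:ℝ)/3) := by
          rw [ENNReal.mul_rpow_of_nonneg _ _ (by norm_num), ← ENNReal.rpow_mul, ← ENNReal.rpow_mul]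
          norm_num
  rw [ENNReal.mul_rpow_of_nonneg _ _ (by norm_num)]
  calc (sig univ)⁻¹ ^ ((5:ℝ)/3) * I ^ ((5:ℝ)/3)
      ≤ (sig univ)⁻¹ ^ ((5:ℝ)/3) * (J * (sig univ) ^ ((2:ℝ)/3)) := by gcongr
    _ = (sig univ)⁻¹ * J := by
        rw [mul_comm J, ← mul_assoc]
        congr 1
        rw [ENNReal.inv_rpow, ← ENNReal.rpow_neg, ← ENNReal.rpow_add _ _ hs0 hs1,
          ← ENNReal.rpow_neg_one]
        norm_num

/-- finite mass, finite kinetic energy -/
structure Good (f : E3 → ℝ≥0∞) : Prop where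
  meas : Measurable f
  mass : ∫⁻ x, f x ≠ ∞
  kin : ∫⁻ x, f x ^ ((5:ℝ)/3) ≠ ∞

/-- local `L^{5/2}` norm of the Coulomb potential -/
noncomputable def C52 (r : ℝ) : ℝ≥0∞ :=
  ∫⁻ x : E3, (ball (0:E3) r).indicator (fun x => ENNReal.ofReal (‖x‖⁻¹) ^ ((5:ℝ)/2)) x

lemma C52_ne_top (r : ℝ) : C52 r ≠ ∞ := by
  unfold C52
  rw [lintegral_indicator measurableSet_ball]
  rcases le_or_gt r 0 with hr | hr
  · rw [ball_eq_empty.mpr hr]; simp
  have h1 : IntegrableOn (fun x : E3 => (‖x‖⁻¹) ^ ((5:ℝ)/2)) (ball (0:E3) r) := by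
    rw [integrableOn_fun_norm_addHaar (volume : Measure E3) (f := fun y : ℝ => (y⁻¹) ^ ((5:ℝ)/2))]
    have hfr : Module.finrank ℝ E3 - 1 = 2 := by simp
    rw [hfr]
    have h2 : IntegrableOn (fun y : ℝ => y ^ (-(1:ℝ)/2)) (Ioo 0 r) := by
      have := (intervalIntegral.intervalIntegrable_rpow' (a := 0) (b := r)
        (r := (-(1:ℝ)/2)) (by norm_num)).1
      exact this.mono_set Ioo_subset_Ioc_self
    refine h2.congr_fun ?_ measurableSet_Ioo
    intro y hy
    have hy0 : 0 < y := hy.1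
    simp only [smul_eq_mul]
    rw [Real.inv_rpow hy0.le, ← Real.rpow_neg hy0.le, ← Real.rpow_natCast, ← Real.rpow_add hy0]
    norm_num
  have h3 := h1.2
  unfold HasFiniteIntegral at h3
  apply ne_of_lt
  refine lt_of_le_of_lt (le_of_eq ?_) h3
  apply setLIntegral_congr_fun measurableSet_ball
  intro x _
  simp only
  rw [ENNReal.ofReal_rpow_of_nonneg (by positivity) (by norm_num),
    Real.enorm_of_nonneg (by positivity)]

lemma K_eq (x a : E3) : K x a = ENNReal.ofReal (‖x - a‖⁻¹) := by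
  unfold K; rw [dist_eq_norm]

/-- bound of the attraction by kinetic energy and mass -/
lemma attr_bound (f : E3 → ℝ≥0∞) (hf : Measurable f) (a : E3) (z r : ℝ) (hz : 0 ≤ z) (hr : 0 < r) :
    ENNReal.ofReal z * ∫⁻ x, f x * K x a ≤
      ENNReal.ofReal (3/5) * (∫⁻ x, f x ^ ((5:ℝ)/3)) +
      (ENNReal.ofReal (2/5 * z ^ ((5:ℝ)/2)) * C52 r + ENNReal.ofReal (z / r) * ∫⁻ x, f x) := by
  have hconj : ((5:ℝ)/3).HolderConjugate (5/2) := by
    constructor <;> norm_num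
  have hKm : Measurable (fun x => K x a) := by unfold K; fun_prop
  have hpt : ∀ x, ENNReal.ofReal z * (f x * K x a) ≤
      ENNReal.ofReal (3/5) * f x ^ ((5:ℝ)/3) + (ENNReal.ofReal (2/5 * z ^ ((5:ℝ)/2)) *
        (ball (0:E3) r).indicator (fun x => ENNReal.ofReal (‖x‖⁻¹) ^ ((5:ℝ)/2)) (x - a) +
        ENNReal.ofReal (z / r) * f x) := by
    intro x
    by_cases hx : x - a ∈ ball (0:E3) r
    · rw [indicator_of_mem hx]
      have h1 := ENNReal.young_inequality (f x) (ENNReal.ofReal z * K x a) hconj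
      calc ENNReal.ofReal z * (f x * K x a) = f x * (ENNReal.ofReal z * K x a) := by ring
        _ ≤ f x ^ ((5:ℝ)/3) / ENNReal.ofReal (5/3) +
            (ENNReal.ofReal z * K x a) ^ ((5:ℝ)/2) / ENNReal.ofReal (5/2) := h1
        _ = ENNReal.ofReal (3/5) * f x ^ ((5:ℝ)/3) + ENNReal.ofReal (2/5 * z ^ ((5:ℝ)/2)) *
            ENNReal.ofReal (‖x - a‖⁻¹) ^ ((5:ℝ)/2) := by
            congr 1
            · rw [ENNReal.div_eq_inv_mul, ← ENNReal.ofReal_inv_of_pos (by norm_num)]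
              norm_num
            · rw [ENNReal.div_eq_inv_mul, ← ENNReal.ofReal_inv_of_pos (by norm_num),
                ENNReal.mul_rpow_of_nonneg _ _ (by norm_num), ← mul_assoc, K_eq]
              congr 1
              rw [ENNReal.ofReal_rpow_of_nonneg hz (by norm_num), ← ENNReal.ofReal_mul (by norm_num)]
              norm_num
        _ ≤ _ := by
            rw [← add_assoc]
            exact le_self_add
    · rw [indicator_of_notMem hx]
      have h1 : r ≤ ‖x - a‖ := by simpa using hx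
      have h2 : K x a ≤ ENNReal.ofReal (r⁻¹) := by
        rw [K_eq]
        apply ENNReal.ofReal_le_ofReal
        exact inv_anti₀ hr h1
      calc ENNReal.ofReal z * (f x * K x a) ≤ ENNReal.ofReal z * (f x * ENNReal.ofReal (r⁻¹)) := by
            gcongr
        _ = ENNReal.ofReal (z / r) * f x := by
            rw [div_eq_mul_inv, ENNReal.ofReal_mul hz]; ring
        _ ≤ _ := by
            rw [mul_zero, zero_add]
            exact le_add_self
  have hCm : Measurable (fun x : E3 => (ball (0:E3) r).indicator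
      (fun x => ENNReal.ofReal (‖x‖⁻¹) ^ ((5:ℝ)/2)) (x - a)) := by
    apply Measurable.comp (g := (ball (0:E3) r).indicator
      (fun x => ENNReal.ofReal (‖x‖⁻¹) ^ ((5:ℝ)/2)))
    · apply Measurable.indicator _ measurableSet_ball
      fun_prop
    · fun_prop
  have h5 : ∫⁻ x : E3, (ball (0:E3) r).indicator
      (fun x => ENNReal.ofReal (‖x‖⁻¹) ^ ((5:ℝ)/2)) (x - a) = C52 r :=
    lintegral_sub_right_eq_self (fun x : E3 => (ball (0:E3) r).indicator
      (fun x => ENNReal.ofReal (‖x‖⁻¹) ^ ((5:ℝ)/2)) x) a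
  have hfK : Measurable (fun x => f x * K x a) := hf.mul hKm
  calc ENNReal.ofReal z * ∫⁻ x, f x * K x a = ∫⁻ x, ENNReal.ofReal z * (f x * K x a) := by
        rw [lintegral_const_mul _ hfK]
    _ ≤ ∫⁻ x, (ENNReal.ofReal (3/5) * f x ^ ((5:ℝ)/3) + (ENNReal.ofReal (2/5 * z ^ ((5:ℝ)/2)) *
        (ball (0:E3) r).indicator (fun x => ENNReal.ofReal (‖x‖⁻¹) ^ ((5:ℝ)/2)) (x - a) +
        ENNReal.ofReal (z / r) * f x)) := lintegral_mono hpt
    _ = _ := by
        rw [lintegral_add_left (by fun_prop), lintegral_add_left (hCm.const_mul _),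
          lintegral_const_mul _ (by fun_prop), lintegral_const_mul _ hCm,
          lintegral_const_mul _ hf, h5]

/-- uniform bound of the potential -/
lemma pot_bound {f : E3 → ℝ≥0∞} (hf : Good f) : ∃ B : ℝ≥0∞, B ≠ ∞ ∧ ∀ a, ∫⁻ x, f x * K x a ≤ B := by
  refine ⟨ENNReal.ofReal (3/5) * (∫⁻ x, f x ^ ((5:ℝ)/3)) +
      (ENNReal.ofReal (2/5 * 1 ^ ((5:ℝ)/2)) * C52 1 + ENNReal.ofReal (1 / 1) * ∫⁻ x, f x), ?_, ?_⟩
  · have h1 := hf.mass
    have h2 := hf.kin
    have h3 := C52_ne_top 1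
    exact ENNReal.add_ne_top.mpr ⟨ENNReal.mul_ne_top ENNReal.ofReal_ne_top h2,
      ENNReal.add_ne_top.mpr ⟨ENNReal.mul_ne_top ENNReal.ofReal_ne_top h3,
        ENNReal.mul_ne_top ENNReal.ofReal_ne_top h1⟩⟩
  · intro a
    have := attr_bound f hf.meas a 1 1 zero_le_one one_pos
    simpa using this

lemma attr_ne_top {f : E3 → ℝ≥0∞} (hf : Good f) (a : E3) : ∫⁻ x, f x * K x a ≠ ∞ := by
  obtain ⟨B, hB, h⟩ := pot_bound hf
  exact ne_top_of_le_ne_top hB (h a)

lemma U_eq (f : E3 → ℝ≥0∞) (a : E3) : U f a = ∫⁻ x, f x * K x a := by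
  unfold U; simp only [K_comm a]

lemma U_ne_top {f : E3 → ℝ≥0∞} (hf : Good f) (a : E3) : U f a ≠ ∞ := by
  rw [U_eq]; exact attr_ne_top hf a

lemma D_ne_top {f g : E3 → ℝ≥0∞} (hf : Good f) (hg : Good g) : D f g ≠ ∞ := by
  obtain ⟨B, hB, h⟩ := pot_bound hg
  unfold D
  have h1 : ∫⁻ x, f x * U g x ≤ ∫⁻ x, f x * B := by
    apply lintegral_mono
    intro x
    simp only
    gcongr
    rw [U_eq]; exact h x
  rw [lintegral_mul_const _ hf.meas] at h1
  exact ne_top_of_le_ne_top (ENNReal.mul_ne_top hf.mass hB) h1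

lemma Good.add {f g : E3 → ℝ≥0∞} (hf : Good f) (hg : Good g) : Good (fun x => f x + g x) := by
  refine ⟨hf.meas.add hg.meas, ?_, ?_⟩
  · rw [lintegral_add_left hf.meas]
    exact ENNReal.add_ne_top.mpr ⟨hf.mass, hg.mass⟩
  · have h1 : ∀ x, (f x + g x) ^ ((5:ℝ)/3) ≤ (2:ℝ≥0∞) ^ ((5:ℝ)/3 - 1) * (f x ^ ((5:ℝ)/3) + g x ^ ((5:ℝ)/3)) := by
      intro x
      exact ENNReal.rpow_add_le_mul_rpow_add_rpow _ _ (by norm_num)
    apply ne_top_of_le_ne_top _ (lintegral_mono h1)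
    rw [lintegral_const_mul _ (by have := hf.meas; have := hg.meas; fun_prop),
      lintegral_add_left (by have := hf.meas; fun_prop)]
    have h2 := hf.kin
    have h3 := hg.kin
    have h4 : (2:ℝ≥0∞) ^ ((5:ℝ)/3 - 1) ≠ ∞ := ENNReal.rpow_ne_top_of_nonneg (by norm_num) (by simp)
    exact ENNReal.mul_ne_top h4 (ENNReal.add_ne_top.mpr ⟨h2, h3⟩)

lemma Good.mono {f g : E3 → ℝ≥0∞} (hf : Good f) (hg : Measurable g) (h : ∀ x, g x ≤ f x) : Good g := by
  refine ⟨hg, ?_, ?_⟩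
  · exact ne_top_of_le_ne_top hf.mass (lintegral_mono h)
  · refine ne_top_of_le_ne_top hf.kin (lintegral_mono fun x => ?_)
    exact ENNReal.rpow_le_rpow (h x) (by norm_num)

lemma D_add_left {f g h : E3 → ℝ≥0∞} (hf : Measurable f) (hh : Measurable h) :
    D (fun x => f x + g x) h = D f h + D g h := by
  unfold D
  have hm : Measurable (fun x => f x * U h x) := hf.mul (measurable_U hh)
  rw [← lintegral_add_left hm]
  apply lintegral_congr; intro x; ring

lemma D_add_right {f g h : E3 → ℝ≥0∞} (hf : Measurable f) (hg : Measurable g) (hh : Measurable h) :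
    D h (fun x => f x + g x) = D h f + D h g := by
  rw [D_comm hh (by fun_prop), D_add_left hf hh, D_comm hf hh, D_comm hg hh]

/-- atomic Thomas-Fermi energy in terms of extended nonnegative functions -/
noncomputable def EA (z : ℝ) (f : E3 → ℝ≥0∞) : ℝ :=
  3 / 5 * (∫⁻ x, f x ^ ((5:ℝ)/3)).toReal - z * (∫⁻ x, f x * K x 0).toReal + 1 / 2 * (D f f).toReal

lemma K_zero (x : E3) : K x 0 = ENNReal.ofReal (‖x‖⁻¹) := by rw [K_eq, sub_zero]

/-- radial potential -/
noncomputable def Rp (g : ℝ → ℝ≥0∞) (r : ℝ) : ℝ≥0∞ :=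
  ∫⁻ y : E3, g ‖y‖ * ENNReal.ofReal ((max r ‖y‖)⁻¹)

lemma measurable_Rp {g : ℝ → ℝ≥0∞} (hg : Measurable g) : Measurable (Rp g) := by
  unfold Rp
  apply Measurable.lintegral_prod_right' (f := fun q : ℝ × E3 =>
    g ‖q.2‖ * ENNReal.ofReal ((max q.1 ‖q.2‖)⁻¹))
  fun_prop

lemma U_radial {g : ℝ → ℝ≥0∞} (hg : Measurable g) (x : E3) :
    U (fun y => g ‖y‖) x = Rp g ‖x‖ := newton g hg x

lemma Rp_le {g : ℝ → ℝ≥0∞} (r : ℝ) (_hr : 0 < r) (hg : Measurable g) :
    Rp g r ≤ ENNReal.ofReal (r⁻¹) * ∫⁻ y : E3, g ‖y‖ := by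
  unfold Rp
  rw [← lintegral_const_mul _ (by fun_prop)]
  apply lintegral_mono
  intro y
  simp only
  rw [mul_comm]
  gcongr
  exact le_max_left _ _

lemma Rp_eq {g : ℝ → ℝ≥0∞} (r r0 : ℝ) (hr : 0 < r) (hg : Measurable g) (h0 : r0 ≤ r)
    (hsupp : ∀ t, r0 < t → g t = 0) :
    Rp g r = ENNReal.ofReal (r⁻¹) * ∫⁻ y : E3, g ‖y‖ := by
  unfold Rp
  rw [← lintegral_const_mul _ (by fun_prop)]
  apply lintegral_congr
  intro y
  rcases le_or_gt ‖y‖ r0 with h | h
  · rw [max_eq_left (by linarith), mul_comm]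
  · rw [hsupp _ h]; simp

/-- radial reduction -/
lemma radial_reduction (z : ℝ) (f : E3 → ℝ≥0∞) (hf : Good f) :
    ∃ g : ℝ → ℝ≥0∞, Measurable g ∧ Good (fun x => g ‖x‖) ∧
      (∫⁻ x : E3, g ‖x‖ = ∫⁻ x, f x) ∧ EA z (fun x => g ‖x‖) ≤ EA z f := by
  have hfm := hf.meas
  have hg := measurable_Av hfm
  have hmass : ∫⁻ x : E3, Av f ‖x‖ = ∫⁻ x, f x := by
    have := lintegral_Av f hfm (fun _ => 1) measurable_const
    simpa using this
  have hkin : ∫⁻ x : E3, Av f ‖x‖ ^ ((5:ℝ)/3) ≤ ∫⁻ x, f x ^ ((5:ℝ)/3) := by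
    have := lintegral_Av (fun x => f x ^ ((5:ℝ)/3)) (by fun_prop) (fun _ => 1) measurable_const
    simp only [mul_one] at this
    rw [← this]
    apply lintegral_mono
    intro x
    exact Av_rpow_le f hfm _
  have hgood : Good (fun x => Av f ‖x‖) := by
    refine ⟨by fun_prop, ?_, ?_⟩
    · rw [hmass]; exact hf.mass
    · exact ne_top_of_le_ne_top hf.kin hkin
  have hatt : ∫⁻ x : E3, Av f ‖x‖ * K x 0 = ∫⁻ x, f x * K x 0 := by
    simp only [K_zero]
    exact lintegral_Av f hfm (fun r => ENNReal.ofReal (r⁻¹)) (by fun_prop)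
  have hD : D f (fun x => Av f ‖x‖) = D (fun x => Av f ‖x‖) (fun x => Av f ‖x‖) := by
    unfold D
    simp only [U_radial hg]
    exact (lintegral_Av f hfm (Rp (Av f)) (measurable_Rp hg)).symm
  have hDle := D_le_of_eq hfm hgood.meas hD (D_ne_top hgood hgood)
  refine ⟨Av f, hg, hgood, hmass, ?_⟩
  unfold EA
  rw [hatt]
  have h1 := ENNReal.toReal_mono hf.kin hkin
  have h2 := ENNReal.toReal_mono (D_ne_top hf hf) hDle
  linarith

lemma rpow_tangent (u c l : ℝ) (hu : 0 ≤ u) (hc : 0 ≤ c) (hl : 0 < l) :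
    (u + c) ^ ((5:ℝ)/3) ≤ u ^ ((5:ℝ)/3) +
      (5/3 * c * l ^ ((2:ℝ)/3) + 5/3 * c * l ^ (-(1:ℝ)/3) * (u + c)) := by
  rcases eq_or_lt_of_le (add_nonneg hu hc) with h0 | h0
  · have hu0 : u = 0 := by linarith
    have hc0 : c = 0 := by linarith
    subst hu0; subst hc0; simp
  set w := u + c with hw
  -- tangent line inequality
  have h1 : w ^ ((5:ℝ)/3) - 5/3 * c * w ^ ((2:ℝ)/3) ≤ u ^ ((5:ℝ)/3) := by
    have hs : -1 ≤ -(c / w) := by
      have : c / w ≤ 1 := by rw [div_le_one h0]; linarith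
      linarith
    have h2 := one_add_mul_self_le_rpow_one_add hs (show (1:ℝ) ≤ 5/3 by norm_num)
    have h3 : 1 + -(c / w) = u / w := by field_simp; linarith
    rw [h3, Real.div_rpow hu h0.le] at h2
    have h4 : 0 < w ^ ((5:ℝ)/3) := Real.rpow_pos_of_pos h0 _
    rw [le_div_iff₀ h4] at h2
    have h5 : w ^ ((5:ℝ)/3) = w * w ^ ((2:ℝ)/3) := by
      rw [show (5:ℝ)/3 = 1 + 2/3 by norm_num, Real.rpow_add h0, Real.rpow_one]
    calc w ^ ((5:ℝ)/3) - 5/3 * c * w ^ ((2:ℝ)/3)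
        = (1 + 5/3 * -(c / w)) * w ^ ((5:ℝ)/3) := by rw [h5]; field_simp; ring
      _ ≤ _ := h2
  have h6 : w ^ ((2:ℝ)/3) ≤ l ^ ((2:ℝ)/3) + l ^ (-(1:ℝ)/3) * w := by
    rcases le_total w l with h | h
    · have := Real.rpow_le_rpow h0.le h (show (0:ℝ) ≤ 2/3 by norm_num)
      have h7 : 0 ≤ l ^ (-(1:ℝ)/3) * w := by positivity
      linarith
    · have h8 : w ^ ((2:ℝ)/3) = w ^ (-(1:ℝ)/3) * w := by
        rw [show (2:ℝ)/3 = -1/3 + 1 by norm_num, Real.rpow_add h0, Real.rpow_one]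
      have h9 : w ^ (-(1:ℝ)/3) ≤ l ^ (-(1:ℝ)/3) := Real.rpow_le_rpow_of_nonpos hl h (by norm_num)
      have h10 : 0 ≤ l ^ ((2:ℝ)/3) := by positivity
      rw [h8]
      nlinarith
  have h11 : 5/3 * c * w ^ ((2:ℝ)/3) ≤ 5/3 * c * (l ^ ((2:ℝ)/3) + l ^ (-(1:ℝ)/3) * w) := by
    gcongr
  nlinarith

lemma rpow_tangent' (u : ℝ≥0∞) (c l : ℝ) (hc : 0 ≤ c) (hl : 0 < l) :
    (u + ENNReal.ofReal c) ^ ((5:ℝ)/3) ≤ u ^ ((5:ℝ)/3) +
      (ENNReal.ofReal (5/3 * c * l ^ ((2:ℝ)/3)) +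
        ENNReal.ofReal (5/3 * c * l ^ (-(1:ℝ)/3)) * (u + ENNReal.ofReal c)) := by
  rcases eq_or_ne u ∞ with h | h
  · subst h
    rw [ENNReal.top_rpow_of_pos (by norm_num : (0:ℝ) < 5/3)]
    simp
  · lift u to NNReal using h
    have h1 := rpow_tangent u c l u.2 hc hl
    have h2 : (u : ℝ≥0∞) = ENNReal.ofReal (u:ℝ) := by simp
    have hu : (0:ℝ) ≤ (u:ℝ) := u.2
    have p1 : 0 ≤ l ^ ((2:ℝ)/3) := by positivity
    have p2 : 0 ≤ l ^ (-(1:ℝ)/3) := by positivity
    rw [h2, ← ENNReal.ofReal_add hu hc, ENNReal.ofReal_rpow_of_nonneg (by positivity) (by norm_num),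
      ENNReal.ofReal_rpow_of_nonneg hu (by norm_num), ← ENNReal.ofReal_mul (by positivity),
      ← ENNReal.ofReal_add (by positivity) (by positivity),
      ← ENNReal.ofReal_add (by positivity) (by positivity)]
    exact ENNReal.ofReal_le_ofReal h1

/-- the open shell -/
def Sh (s : ℝ) : Set E3 := {x | s < ‖x‖ ∧ ‖x‖ < 2 * s}

lemma measurableSet_Sh (s : ℝ) : MeasurableSet (Sh s) := by
  unfold Sh
  apply MeasurableSet.inter
  · exact measurableSet_lt measurable_const measurable_norm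
  · exact measurableSet_lt measurable_norm measurable_const

lemma vol_Sh_pos (s : ℝ) (hs : 0 < s) : volume (Sh s) ≠ 0 := by
  have ho : IsOpen (Sh s) := by
    unfold Sh
    exact (isOpen_lt continuous_const continuous_norm).inter (isOpen_lt continuous_norm continuous_const)
  have hne : (Sh s).Nonempty := by
    refine ⟨EuclideanSpace.single 0 (3/2 * s), ?_⟩
    have : ‖(EuclideanSpace.single 0 (3/2 * s) : E3)‖ = 3/2 * s := by
      simp [abs_of_pos hs]
    unfold Sh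
    constructor
    · rw [this]; linarith
    · rw [this]; linarith
  exact (ho.measure_pos _ hne).ne'

lemma vol_Sh_top (s : ℝ) : volume (Sh s) ≠ ∞ := by
  have : Sh s ⊆ ball 0 (2 * s) := by
    intro x hx
    simpa using hx.2
  exact ne_top_of_le_ne_top (measure_ball_lt_top.ne) (measure_mono this)

/-- real volume of the shell -/
noncomputable def vs (s : ℝ) : ℝ := (volume (Sh s)).toReal

lemma vs_pos (s : ℝ) (hs : 0 < s) : 0 < vs s :=
  ENNReal.toReal_pos (vol_Sh_pos s hs) (vol_Sh_top s)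

lemma ofReal_vs (s : ℝ) : ENNReal.ofReal (vs s) = volume (Sh s) :=
  ENNReal.ofReal_toReal (vol_Sh_top s)

/-- The shifting lemma. -/
lemma shift (z s m : ℝ) (hz : 0 ≤ z) (hs : 0 < s) (hm : 0 < m) (g : ℝ → ℝ≥0∞) (hg : Measurable g)
    (hgood : Good (fun x : E3 => g ‖x‖)) (hmass : ∫⁻ x : E3, g ‖x‖ = ENNReal.ofReal z)
    (htail : ∫⁻ x : E3, {x : E3 | s < ‖x‖}.indicator (fun x => g ‖x‖) x ≤ ENNReal.ofReal m) :
    ∃ g' : ℝ → ℝ≥0∞, Measurable g' ∧ Good (fun x : E3 => g' ‖x‖) ∧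
      (∫⁻ x : E3, g' ‖x‖ = ENNReal.ofReal z) ∧ (∀ r, 8 * s < r → g' r = 0) ∧
      EA z (fun x => g' ‖x‖) ≤ EA z (fun x => g ‖x‖) +
        2 * (∫⁻ x : E3, {x : E3 | 8 * s < ‖x‖}.indicator (fun x => g ‖x‖) x).toReal *
          (m / vs s) ^ ((2:ℝ)/3) -
        (∫⁻ x : E3, {x : E3 | 8 * s < ‖x‖}.indicator (fun x => g ‖x‖) x).toReal ^ 2 / (8 * s) := by
  -- radial pieces
  set g1 : ℝ → ℝ≥0∞ := (Iic (8 * s)).indicator g with hg1
  set gt : ℝ → ℝ≥0∞ := (Ioi (8 * s)).indicator g with hgt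
  have hg1m : Measurable g1 := hg.indicator measurableSet_Iic
  have hgtm : Measurable gt := hg.indicator measurableSet_Ioi
  have htau : ∀ x : E3, {x : E3 | 8 * s < ‖x‖}.indicator (fun x => g ‖x‖) x = gt ‖x‖ := by
    intro x
    by_cases h : 8 * s < ‖x‖
    · rw [indicator_of_mem (by simpa using h), hgt, indicator_of_mem (by simpa using h)]
    · rw [indicator_of_notMem (by simpa using h), hgt, indicator_of_notMem (by simpa using h)]
  simp only [htau]
  set Tn : ℝ≥0∞ := ∫⁻ x : E3, gt ‖x‖ with hTn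
  have hsum : ∀ r, g r = g1 r + gt r := by
    intro r
    simp only [hg1, hgt]
    by_cases h : r ≤ 8 * s
    · rw [indicator_of_mem (by simpa using h), indicator_of_notMem (by simpa using h), add_zero]
    · rw [indicator_of_notMem (by simpa using h), indicator_of_mem (by simpa using h), zero_add]
  have hTtop : Tn ≠ ∞ := by
    apply ne_top_of_le_ne_top hgood.mass
    apply lintegral_mono
    intro x
    simp only
    rw [hsum ‖x‖]
    exact le_add_self
  set T : ℝ := Tn.toReal with hT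
  have hT0 : 0 ≤ T := ENNReal.toReal_nonneg
  have hTofReal : ENNReal.ofReal T = Tn := ENNReal.ofReal_toReal hTtop
  have hv := vs_pos s hs
  set c : ℝ := T / vs s with hc
  have hc0 : 0 ≤ c := by positivity
  set ge : ℝ → ℝ≥0∞ := (Ioo s (2 * s)).indicator (fun _ => ENNReal.ofReal c) with hge
  have hgem : Measurable ge := measurable_const.indicator measurableSet_Ioo
  have heta : ∀ x : E3, ge ‖x‖ = (Sh s).indicator (fun _ => ENNReal.ofReal c) x := by
    intro x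
    by_cases h : x ∈ Sh s
    · rw [indicator_of_mem h, hge, indicator_of_mem (by simpa [Sh] using h)]
    · rw [indicator_of_notMem h, hge, indicator_of_notMem (by simpa [Sh] using h)]
  have hetamass : ∫⁻ x : E3, ge ‖x‖ = Tn := by
    simp only [heta]
    rw [lintegral_indicator_const (measurableSet_Sh s), ← ofReal_vs, ← ENNReal.ofReal_mul hc0, ← hTofReal]
    congr 1
    rw [hc]; field_simp
  have hg1le : ∀ x : E3, g1 ‖x‖ ≤ g ‖x‖ := fun x => by rw [hsum ‖x‖]; exact le_self_add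
  have hgtle : ∀ x : E3, gt ‖x‖ ≤ g ‖x‖ := fun x => by rw [hsum ‖x‖]; exact le_add_self
  have hG1 : Good (fun x : E3 => g1 ‖x‖) := hgood.mono (by fun_prop) hg1le
  have hGt : Good (fun x : E3 => gt ‖x‖) := hgood.mono (by fun_prop) hgtle
  have hGe : Good (fun x : E3 => ge ‖x‖) := by
    refine ⟨by fun_prop, ?_, ?_⟩
    · rw [hetamass]; exact hTtop
    · have h1 : ∀ x : E3, ge ‖x‖ ^ ((5:ℝ)/3) =
          (Sh s).indicator (fun _ => ENNReal.ofReal c ^ ((5:ℝ)/3)) x := by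
        intro x
        rw [heta x]
        by_cases h : x ∈ Sh s
        · rw [indicator_of_mem h, indicator_of_mem h]
        · rw [indicator_of_notMem h, indicator_of_notMem h, ENNReal.zero_rpow_of_pos (by norm_num)]
      simp only [h1]
      rw [lintegral_indicator_const (measurableSet_Sh s)]
      exact ENNReal.mul_ne_top (ENNReal.rpow_ne_top_of_nonneg (by norm_num) ENNReal.ofReal_ne_top)
        (vol_Sh_top s)
  set a1 : ℝ≥0∞ := ∫⁻ x : E3, g1 ‖x‖ with ha1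
  have ha1T : a1 + Tn = ENNReal.ofReal z := by
    rw [ha1, hTn, ← lintegral_add_left (by fun_prop), ← hmass]
    apply lintegral_congr
    intro x
    rw [hsum ‖x‖]
  have ha1top : a1 ≠ ∞ := hG1.mass
  have ha1real : a1.toReal + T = z := by
    rw [hT, ← ENNReal.toReal_add ha1top hTtop, ha1T, ENNReal.toReal_ofReal hz]
  refine ⟨fun r => g1 r + ge r, hg1m.add hgem, hG1.add hGe, ?_, ?_, ?_⟩
  · rw [lintegral_add_left (by fun_prop), hetamass]
    exact ha1T
  · intro r hr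
    simp only [hg1, hge]
    rw [indicator_of_notMem (by simpa using hr), indicator_of_notMem, add_zero]
    simp only [mem_Ioo, not_and, not_lt]
    intro _; linarith
  -- kinetic energy
  set l : ℝ := m / vs s with hl
  have hl0 : 0 < l := by positivity
  have hkin : (∫⁻ x : E3, (g1 ‖x‖ + ge ‖x‖) ^ ((5:ℝ)/3)).toReal ≤
      (∫⁻ x : E3, g ‖x‖ ^ ((5:ℝ)/3)).toReal +
        (5/3 * c * l ^ ((2:ℝ)/3) * vs s + 5/3 * c * l ^ (-(1:ℝ)/3) * m) := by
    have hA0 : 0 ≤ 5/3 * c * l ^ ((2:ℝ)/3) := by positivity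
    have hB0 : 0 ≤ 5/3 * c * l ^ (-(1:ℝ)/3) := by positivity
    have hpt : ∀ x : E3, (g1 ‖x‖ + ge ‖x‖) ^ ((5:ℝ)/3) ≤ g ‖x‖ ^ ((5:ℝ)/3) +
        (Sh s).indicator (fun x => ENNReal.ofReal (5/3 * c * l ^ ((2:ℝ)/3)) +
          ENNReal.ofReal (5/3 * c * l ^ (-(1:ℝ)/3)) * (g ‖x‖ + ENNReal.ofReal c)) x := by
      intro x
      rw [heta x]
      by_cases h : x ∈ Sh s
      · rw [indicator_of_mem h, indicator_of_mem h]
        have h1 : g1 ‖x‖ = g ‖x‖ := by
          rw [hg1, indicator_of_mem]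
          have := h.2
          simp only [mem_Iic]; linarith
        rw [h1]
        exact rpow_tangent' _ c l hc0 hl0
      · rw [indicator_of_notMem h, indicator_of_notMem h, add_zero, add_zero]
        exact ENNReal.rpow_le_rpow (hg1le x) (by norm_num)
    have hle := lintegral_mono (μ := (volume : Measure E3)) hpt
    rw [lintegral_add_left (by fun_prop), lintegral_indicator (measurableSet_Sh s),
      lintegral_add_left measurable_const, lintegral_const, Measure.restrict_apply MeasurableSet.univ,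
      univ_inter, lintegral_const_mul _ (by fun_prop), lintegral_add_left (by fun_prop),
      lintegral_const, Measure.restrict_apply MeasurableSet.univ, univ_inter] at hle
    have hce : ENNReal.ofReal c * volume (Sh s) = Tn := by
      rw [← ofReal_vs, ← ENNReal.ofReal_mul hc0, ← hTofReal]
      congr 1
      rw [hc]; field_simp
    rw [hce] at hle
    have hm' : (∫⁻ x in Sh s, g ‖x‖) + Tn ≤ ENNReal.ofReal m := by
      refine le_trans ?_ htail
      rw [hTn, ← lintegral_indicator (measurableSet_Sh s), ← lintegral_add_right _ (by fun_prop)]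
      apply lintegral_mono
      intro x
      simp only
      by_cases h : x ∈ Sh s
      · rw [indicator_of_mem h, indicator_of_mem (by simpa using h.1)]
        have h1 : gt ‖x‖ = 0 := by
          rw [hgt, indicator_of_notMem]
          have := h.2
          simp only [mem_Ioi, not_lt]; linarith
        rw [h1, add_zero]
      · rw [indicator_of_notMem h, zero_add]
        by_cases h2 : 8 * s < ‖x‖
        · rw [indicator_of_mem (show x ∈ {x : E3 | s < ‖x‖} from (by linarith : s < ‖x‖))]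
          exact hgtle x
        · have h1 : gt ‖x‖ = 0 := by
            rw [hgt, indicator_of_notMem (by simpa using h2)]
          rw [h1]
          exact zero_le
    have hle2 : ∫⁻ x : E3, (g1 ‖x‖ + ge ‖x‖) ^ ((5:ℝ)/3) ≤ (∫⁻ x : E3, g ‖x‖ ^ ((5:ℝ)/3)) +
        (ENNReal.ofReal (5/3 * c * l ^ ((2:ℝ)/3)) * ENNReal.ofReal (vs s) +
          ENNReal.ofReal (5/3 * c * l ^ (-(1:ℝ)/3)) * ENNReal.ofReal m) := by
      refine hle.trans ?_
      rw [ofReal_vs]
      gcongr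
    rw [← ENNReal.ofReal_mul hA0, ← ENNReal.ofReal_mul hB0, ← ENNReal.ofReal_add (by positivity)
      (by positivity)] at hle2
    have h3 := ENNReal.toReal_mono (ENNReal.add_ne_top.mpr ⟨hgood.kin, ENNReal.ofReal_ne_top⟩) hle2
    rw [ENNReal.toReal_add hgood.kin ENNReal.ofReal_ne_top, ENNReal.toReal_ofReal (by positivity)] at h3
    exact h3
  have hkin2 : 3/5 * (5/3 * c * l ^ ((2:ℝ)/3) * vs s + 5/3 * c * l ^ (-(1:ℝ)/3) * m) =
      2 * T * l ^ ((2:ℝ)/3) := by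
    have h1 : l ^ ((2:ℝ)/3) = l ^ (-(1:ℝ)/3) * l := by
      rw [show (2:ℝ)/3 = -1/3 + 1 by norm_num, Real.rpow_add hl0, Real.rpow_one]
    have h2 : c * vs s = T := by rw [hc]; field_simp
    have h3 : m = l * vs s := by rw [hl]; field_simp
    calc 3/5 * (5/3 * c * l ^ ((2:ℝ)/3) * vs s + 5/3 * c * l ^ (-(1:ℝ)/3) * m)
        = (c * vs s) * l ^ ((2:ℝ)/3) + (c * vs s) * (l ^ (-(1:ℝ)/3) * l) := by
          rw [h3]; ring
      _ = 2 * T * l ^ ((2:ℝ)/3) := by rw [h2, ← h1]; ring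
  -- Coulomb energy
  have hKm : Measurable (fun x : E3 => K x 0) := by unfold K; fun_prop
  set H : ℝ≥0∞ := ∫⁻ x : E3, ge ‖x‖ * K x 0 with hH
  set h : ℝ≥0∞ := ∫⁻ x : E3, gt ‖x‖ * K x 0 with hh
  set p1 : ℝ≥0∞ := ∫⁻ x : E3, g1 ‖x‖ * K x 0 with hp1
  have hHtop : H ≠ ∞ := attr_ne_top hGe 0
  have hhtop : h ≠ ∞ := attr_ne_top hGt 0
  have hp1top : p1 ≠ ∞ := attr_ne_top hG1 0
  have hHge : ENNReal.ofReal ((2 * s)⁻¹) * Tn ≤ H := by
    rw [← hetamass, ← lintegral_const_mul _ (by fun_prop)]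
    apply lintegral_mono
    intro x
    simp only
    rw [mul_comm, heta x]
    by_cases hx : x ∈ Sh s
    · rw [indicator_of_mem hx, K_zero]
      gcongr
      · have := hx.1; linarith
      · exact hx.2.le
    · rw [indicator_of_notMem hx, zero_mul, zero_mul]
  have hhle : h ≤ ENNReal.ofReal ((8 * s)⁻¹) * Tn := by
    rw [hTn, ← lintegral_const_mul _ (by fun_prop)]
    apply lintegral_mono
    intro x
    simp only
    rw [mul_comm]
    by_cases hx : 8 * s < ‖x‖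
    · rw [K_zero]
      gcongr
    · have h1 : gt ‖x‖ = 0 := by
        rw [hgt, indicator_of_notMem (by simpa using hx)]
      rw [h1, mul_zero, mul_zero]
  have hpot : ∀ {k : ℝ → ℝ≥0∞}, Measurable k → ∀ x : E3,
      ge ‖x‖ * U (fun y => k ‖y‖) x ≤ ge ‖x‖ * K x 0 * ∫⁻ y : E3, k ‖y‖ := by
    intro k hk x
    rw [U_radial hk, heta x, mul_assoc]
    by_cases hx : x ∈ Sh s
    · rw [indicator_of_mem hx, K_zero]
      gcongr
      exact Rp_le _ (lt_trans hs hx.1) hk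
    · rw [indicator_of_notMem hx, zero_mul, zero_mul]
  have hDe1 : D (fun x => ge ‖x‖) (fun x => g1 ‖x‖) ≤ H * a1 := by
    unfold D
    rw [hH, ← lintegral_mul_const _ (by fun_prop)]
    exact lintegral_mono (hpot hg1m)
  have hDee : D (fun x => ge ‖x‖) (fun x => ge ‖x‖) ≤ H * Tn := by
    unfold D
    rw [hH, ← lintegral_mul_const _ (by fun_prop)]
    have := lintegral_mono (μ := (volume : Measure E3)) (hpot hgem)
    rw [hetamass] at this
    exact this
  have hDt1 : D (fun x => gt ‖x‖) (fun x => g1 ‖x‖) = h * a1 := by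
    unfold D
    rw [hh, ← lintegral_mul_const _ (by fun_prop)]
    apply lintegral_congr
    intro x
    show gt ‖x‖ * U (fun x => g1 ‖x‖) x = gt ‖x‖ * K x 0 * a1
    rw [U_radial hg1m]
    by_cases hx : 8 * s < ‖x‖
    · rw [Rp_eq ‖x‖ (8 * s) (by linarith) hg1m hx.le, K_zero, mul_assoc]
      intro t ht
      rw [hg1, indicator_of_notMem (by simpa using ht)]
    · have h1 : gt ‖x‖ = 0 := by
        rw [hgt, indicator_of_notMem (by simpa using hx)]
      rw [h1, zero_mul, zero_mul, zero_mul]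
  -- expansions
  have hmG1 : Measurable (fun x : E3 => g1 ‖x‖) := by fun_prop
  have hmGt : Measurable (fun x : E3 => gt ‖x‖) := by fun_prop
  have hmGe : Measurable (fun x : E3 => ge ‖x‖) := by fun_prop
  have hexp : ∀ {k : E3 → ℝ≥0∞}, Good k →
      (D (fun x => g1 ‖x‖ + k x) (fun x => g1 ‖x‖ + k x)).toReal =
      (D (fun x => g1 ‖x‖) (fun x => g1 ‖x‖)).toReal +
        2 * (D k (fun x => g1 ‖x‖)).toReal + (D k k).toReal := by
    intro k hk
    have hsm : Measurable (fun x : E3 => g1 ‖x‖ + k x) := hmG1.add hk.meas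
    rw [D_add_left hmG1 hsm, D_add_right hmG1 hk.meas hmG1,
      D_add_right hmG1 hk.meas hk.meas, D_comm hmG1 hk.meas,
      ENNReal.toReal_add (ENNReal.add_ne_top.mpr ⟨D_ne_top hG1 hG1, D_ne_top hk hG1⟩)
        (ENNReal.add_ne_top.mpr ⟨D_ne_top hk hG1, D_ne_top hk hk⟩),
      ENNReal.toReal_add (D_ne_top hG1 hG1) (D_ne_top hk hG1),
      ENNReal.toReal_add (D_ne_top hk hG1) (D_ne_top hk hk)]
    ring
  have hg_eq : (fun x : E3 => g ‖x‖) = (fun x : E3 => g1 ‖x‖ + gt ‖x‖) := by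
    funext x; exact hsum ‖x‖
  have hatt' : (∫⁻ x : E3, (g1 ‖x‖ + ge ‖x‖) * K x 0).toReal = p1.toReal + H.toReal := by
    rw [← ENNReal.toReal_add hp1top hHtop, hp1, hH, ← lintegral_add_left (by fun_prop)]
    congr 1
    apply lintegral_congr; intro x; ring
  have hatt : (∫⁻ x : E3, g ‖x‖ * K x 0).toReal = p1.toReal + h.toReal := by
    rw [← ENNReal.toReal_add hp1top hhtop, hp1, hh, ← lintegral_add_left (by fun_prop)]
    congr 1
    apply lintegral_congr; intro x; rw [hsum ‖x‖]; ring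
  have r1 := ENNReal.toReal_mono (ENNReal.mul_ne_top hHtop ha1top) hDe1
  have r2 := ENNReal.toReal_mono (ENNReal.mul_ne_top hHtop hTtop) hDee
  have r3 := congrArg ENNReal.toReal hDt1
  have r4 := ENNReal.toReal_mono hHtop hHge
  have r5 := ENNReal.toReal_mono (ENNReal.mul_ne_top ENNReal.ofReal_ne_top hTtop) hhle
  rw [ENNReal.toReal_mul] at r1 r2 r3 r4 r5
  rw [ENNReal.toReal_ofReal (by positivity)] at r4 r5
  rw [← hT] at r2 r4 r5
  have r6 : (0:ℝ) ≤ (D (fun x : E3 => gt ‖x‖) (fun x => gt ‖x‖)).toReal := ENNReal.toReal_nonneg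
  have e1 := hexp hGe
  have e2 := hexp hGt
  have ha1' : a1.toReal = z - T := by linarith
  rw [ha1'] at r1 r3
  have hs' : (2 * s)⁻¹ = 4 * (8 * s)⁻¹ := by field_simp; norm_num
  rw [hs'] at r4
  have hdiv : T ^ 2 / (8 * s) = T * ((8 * s)⁻¹ * T) := by
    rw [div_eq_mul_inv]; ring
  have r7 : T * h.toReal ≤ T * ((8 * s)⁻¹ * T) := mul_le_mul_of_nonneg_left r5 hT0
  have r8 : T * (4 * (8 * s)⁻¹ * T) ≤ T * H.toReal := mul_le_mul_of_nonneg_left r4 hT0
  have hD2 : (D (fun x : E3 => g ‖x‖) (fun x => g ‖x‖)).toReal =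
      (D (fun x : E3 => g1 ‖x‖) fun x => g1 ‖x‖).toReal +
      2 * (D (fun x : E3 => gt ‖x‖) fun x => g1 ‖x‖).toReal +
      (D (fun x : E3 => gt ‖x‖) fun x => gt ‖x‖).toReal := by
    rw [hg_eq]; exact e2
  unfold EA
  simp only
  rw [e1, hatt', hatt, hD2, hdiv]
  linarith

/-- radial competitor of mass `z` -/
structure Rad (z : ℝ) (g : ℝ → ℝ≥0∞) : Prop where
  meas : Measurable g
  good : Good (fun x : E3 => g ‖x‖)
  mass : ∫⁻ x : E3, g ‖x‖ = ENNReal.ofReal z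

lemma quad_bound (s q T : ℝ) (hs : 0 < s) (hq : 0 ≤ q) (h : T ^ 2 / (8 * s) ≤ 1 + 2 * T * q) :
    T ≤ 16 * s * q + 8 * s + 1 := by
  by_contra hcon
  push Not at hcon
  rw [div_le_iff₀ (by positivity)] at h
  have h1 : 1 < T := by nlinarith [mul_nonneg hs.le hq]
  nlinarith [mul_nonneg hs.le hq]

lemma compact_trial (s0 : ℝ) (hs0 : 0 < s0) : ∃ C : ℝ, 0 ≤ C ∧ ∀ z : ℝ, 1 ≤ z → ∀ e : ℝ,
    (∀ g, Rad z g → e ≤ EA z (fun x => g ‖x‖)) → (∃ g, Rad z g ∧ EA z (fun x => g ‖x‖) ≤ e + 1) →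
    ∃ g, Rad z g ∧ (∀ r, 64 * s0 < r → g r = 0) ∧
      EA z (fun x => g ‖x‖) ≤ e + 1 + C * z ^ ((8:ℝ)/9) := by
  have hv0 := vs_pos s0 hs0
  set s1 : ℝ := 8 * s0 with hs1
  have hs1p : 0 < s1 := by positivity
  have hv1 := vs_pos s1 hs1p
  set C1 : ℝ := 16 * s0 * (1 / vs s0) ^ ((2:ℝ)/3) + 8 * s0 + 1 with hC1
  have hC1p : 0 < C1 := by positivity
  set C2 : ℝ := 16 * s1 * (C1 / vs s1) ^ ((2:ℝ)/3) + 8 * s1 + 1 with hC2
  have hC2p : 0 < C2 := by positivity
  refine ⟨2 * C2 * (C1 / vs s1) ^ ((2:ℝ)/3), by positivity, ?_⟩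
  intro z hz e hlow hex
  obtain ⟨g, hg, hge⟩ := hex
  have hz0 : 0 < z := by linarith
  have hzp : (1:ℝ) ≤ z ^ ((2:ℝ)/3) := Real.one_le_rpow hz (by norm_num)
  have hzp2 : (1:ℝ) ≤ z ^ ((4:ℝ)/9) := Real.one_le_rpow hz (by norm_num)
  -- first shift
  have ht0 : ∫⁻ x : E3, {x : E3 | s0 < ‖x‖}.indicator (fun x => g ‖x‖) x ≤ ENNReal.ofReal z := by
    rw [← hg.mass]
    apply lintegral_mono
    intro x
    exact indicator_le_self _ _ _
  obtain ⟨g1, hg1m, hg1g, hg1z, -, hg1e⟩ :=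
    shift z s0 z hz0.le hs0 hz0 g hg.meas hg.good hg.mass ht0
  set T1 : ℝ := (∫⁻ x : E3, {x : E3 | 8 * s0 < ‖x‖}.indicator (fun x => g ‖x‖) x).toReal with hT1
  have hT1n : 0 ≤ T1 := ENNReal.toReal_nonneg
  have hl1 := hlow g1 ⟨hg1m, hg1g, hg1z⟩
  have hT1b : T1 ≤ C1 * z ^ ((2:ℝ)/3) := by
    have h1 : T1 ^ 2 / (8 * s0) ≤ 1 + 2 * T1 * (z / vs s0) ^ ((2:ℝ)/3) := by linarith
    have h2 := quad_bound s0 _ T1 hs0 (by positivity) h1
    have h3 : (z / vs s0) ^ ((2:ℝ)/3) = (1 / vs s0) ^ ((2:ℝ)/3) * z ^ ((2:ℝ)/3) := by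
      rw [← Real.mul_rpow (by positivity) hz0.le]
      congr 1
      ring
    rw [h3] at h2
    rw [hC1]
    nlinarith
  -- second shift
  have hm1 : 0 < C1 * z ^ ((2:ℝ)/3) := by positivity
  have ht1 : ∫⁻ x : E3, {x : E3 | s1 < ‖x‖}.indicator (fun x => g ‖x‖) x ≤
      ENNReal.ofReal (C1 * z ^ ((2:ℝ)/3)) := by
    have htop : ∫⁻ x : E3, {x : E3 | s1 < ‖x‖}.indicator (fun x => g ‖x‖) x ≠ ∞ := by
      apply ne_top_of_le_ne_top hg.good.mass
      apply lintegral_mono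
      intro x
      exact indicator_le_self _ _ _
    rw [← ENNReal.ofReal_toReal htop]
    apply ENNReal.ofReal_le_ofReal
    exact hT1b
  obtain ⟨g2, hg2m, hg2g, hg2z, hg2s, hg2e⟩ :=
    shift z s1 (C1 * z ^ ((2:ℝ)/3)) hz0.le hs1p hm1 g hg.meas hg.good hg.mass ht1
  set T2 : ℝ := (∫⁻ x : E3, {x : E3 | 8 * s1 < ‖x‖}.indicator (fun x => g ‖x‖) x).toReal with hT2
  have hT2n : 0 ≤ T2 := ENNReal.toReal_nonneg
  have hl2 := hlow g2 ⟨hg2m, hg2g, hg2z⟩
  have h3 : (C1 * z ^ ((2:ℝ)/3) / vs s1) ^ ((2:ℝ)/3) = (C1 / vs s1) ^ ((2:ℝ)/3) * z ^ ((4:ℝ)/9) := by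
    rw [show (4:ℝ)/9 = 2/3 * (2/3) by norm_num, Real.rpow_mul hz0.le,
      ← Real.mul_rpow (by positivity) (by positivity)]
    congr 1
    ring
  rw [h3] at hg2e
  set q : ℝ := (C1 / vs s1) ^ ((2:ℝ)/3) with hq
  have hq0 : 0 ≤ q := by positivity
  have hT2b : T2 ≤ C2 * z ^ ((4:ℝ)/9) := by
    have h1 : T2 ^ 2 / (8 * s1) ≤ 1 + 2 * T2 * (q * z ^ ((4:ℝ)/9)) := by linarith
    have h2 := quad_bound s1 _ T2 hs1p (by positivity) h1
    rw [hC2]
    nlinarith
  refine ⟨g2, ⟨hg2m, hg2g, hg2z⟩, ?_, ?_⟩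
  · intro r hr
    apply hg2s
    rw [hs1]; linarith
  · have h5 : 0 ≤ T2 ^ 2 / (8 * s1) := by positivity
    have h6 : 2 * T2 * (q * z ^ ((4:ℝ)/9)) ≤ 2 * (C2 * z ^ ((4:ℝ)/9)) * (q * z ^ ((4:ℝ)/9)) := by
      gcongr
    have h7 : z ^ ((8:ℝ)/9) = z ^ ((4:ℝ)/9) * z ^ ((4:ℝ)/9) := by
      rw [← Real.rpow_add hz0]; norm_num
    rw [h7]
    nlinarith

/-- representation of a real density by an extended nonnegative one -/
structure Rep (ρ : E3 → ℝ) (f : E3 → ℝ≥0∞) : Prop where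
  nonneg : ∀ x, 0 ≤ ρ x
  ae : ∀ᵐ x, ENNReal.ofReal (ρ x) = f x
  good : Good f

lemma Rep.aesm {ρ : E3 → ℝ} {f : E3 → ℝ≥0∞} (h : Rep ρ f) : AEStronglyMeasurable ρ volume := by
  refine ⟨fun x => (f x).toReal, h.good.meas.ennreal_toReal.stronglyMeasurable, ?_⟩
  filter_upwards [h.ae] with x hx
  rw [← hx, ENNReal.toReal_ofReal (h.nonneg x)]

lemma Rep.integral {ρ : E3 → ℝ} {f : E3 → ℝ≥0∞} (h : Rep ρ f) : ∫ x, ρ x = (∫⁻ x, f x).toReal := by
  rw [integral_eq_lintegral_of_nonneg_ae (Filter.Eventually.of_forall h.nonneg) h.aesm]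
  congr 1
  exact lintegral_congr_ae h.ae

lemma Rep.integrable {ρ : E3 → ℝ} {f : E3 → ℝ≥0∞} (h : Rep ρ f) : Integrable ρ := by
  refine ⟨h.aesm, ?_⟩
  rw [hasFiniteIntegral_iff_ofReal (Filter.Eventually.of_forall h.nonneg), lintegral_congr_ae h.ae]
  exact h.good.mass.lt_top

lemma Rep.ae53 {ρ : E3 → ℝ} {f : E3 → ℝ≥0∞} (h : Rep ρ f) :
    ∀ᵐ x, ENNReal.ofReal (ρ x ^ ((5:ℝ)/3)) = f x ^ ((5:ℝ)/3) := by
  filter_upwards [h.ae] with x hx
  rw [← ENNReal.ofReal_rpow_of_nonneg (h.nonneg x) (by norm_num), hx]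

lemma Rep.aesm53 {ρ : E3 → ℝ} {f : E3 → ℝ≥0∞} (h : Rep ρ f) :
    AEStronglyMeasurable (fun x => ρ x ^ ((5:ℝ)/3)) volume := by
  have := h.aesm.aemeasurable.pow_const ((5:ℝ)/3)
  exact this.aestronglyMeasurable

lemma Rep.integral53 {ρ : E3 → ℝ} {f : E3 → ℝ≥0∞} (h : Rep ρ f) :
    ∫ x, ρ x ^ ((5:ℝ)/3) = (∫⁻ x, f x ^ ((5:ℝ)/3)).toReal := by
  rw [integral_eq_lintegral_of_nonneg_ae
    (Filter.Eventually.of_forall fun x => Real.rpow_nonneg (h.nonneg x) _) h.aesm53]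
  congr 1
  exact lintegral_congr_ae h.ae53

lemma Rep.integrable53 {ρ : E3 → ℝ} {f : E3 → ℝ≥0∞} (h : Rep ρ f) :
    Integrable (fun x => ρ x ^ ((5:ℝ)/3)) := by
  refine ⟨h.aesm53, ?_⟩
  rw [hasFiniteIntegral_iff_ofReal
    (Filter.Eventually.of_forall fun x => Real.rpow_nonneg (h.nonneg x) _), lintegral_congr_ae h.ae53]
  exact h.good.kin.lt_top

lemma Rep.aeK {ρ : E3 → ℝ} {f : E3 → ℝ≥0∞} (h : Rep ρ f) (a : E3) :
    ∀ᵐ x, ENNReal.ofReal (ρ x / dist x a) = f x * K x a := by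
  filter_upwards [h.ae] with x hx
  rw [div_eq_mul_inv, ENNReal.ofReal_mul (h.nonneg x), hx]
  rfl

lemma Rep.aesmK {ρ : E3 → ℝ} {f : E3 → ℝ≥0∞} (h : Rep ρ f) (a : E3) :
    AEStronglyMeasurable (fun x => ρ x / dist x a) volume := by
  apply h.aesm.div₀
  · fun_prop

lemma Rep.nonnegK {ρ : E3 → ℝ} {f : E3 → ℝ≥0∞} (h : Rep ρ f) (a : E3) (x : E3) :
    0 ≤ ρ x / dist x a := div_nonneg (h.nonneg x) dist_nonneg

lemma Rep.integralK {ρ : E3 → ℝ} {f : E3 → ℝ≥0∞} (h : Rep ρ f) (a : E3) :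
    ∫ x, ρ x / dist x a = (∫⁻ x, f x * K x a).toReal := by
  rw [integral_eq_lintegral_of_nonneg_ae (Filter.Eventually.of_forall (h.nonnegK a)) (h.aesmK a)]
  congr 1
  exact lintegral_congr_ae (h.aeK a)

lemma Rep.integrableK {ρ : E3 → ℝ} {f : E3 → ℝ≥0∞} (h : Rep ρ f) (a : E3) :
    Integrable (fun x => ρ x / dist x a) := by
  refine ⟨h.aesmK a, ?_⟩
  rw [hasFiniteIntegral_iff_ofReal (Filter.Eventually.of_forall (h.nonnegK a)),
    lintegral_congr_ae (h.aeK a)]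
  exact (attr_ne_top h.good a).lt_top

lemma Rep.integralD {ρ : E3 → ℝ} {f : E3 → ℝ≥0∞} (h : Rep ρ f) :
    ∫ x, ∫ y, ρ x * ρ y / dist x y = (D f f).toReal := by
  have h1 : ∀ x, ∫ y, ρ x * ρ y / dist x y = ρ x * (U f x).toReal := by
    intro x
    have h2 : ∀ y, ρ x * ρ y / dist x y = ρ x * (ρ y / dist y x) := by
      intro y; rw [dist_comm]; ring
    simp only [h2]
    rw [integral_const_mul, h.integralK x, U_eq]
  simp only [h1]
  have hU : Measurable (fun x => (U f x).toReal) := (measurable_U h.good.meas).ennreal_toReal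
  rw [integral_eq_lintegral_of_nonneg_ae
    (Filter.Eventually.of_forall fun x => mul_nonneg (h.nonneg x) ENNReal.toReal_nonneg)
    (h.aesm.mul hU.aestronglyMeasurable)]
  congr 1
  unfold D
  apply lintegral_congr_ae
  filter_upwards [h.ae] with x hx
  rw [ENNReal.ofReal_mul (h.nonneg x), hx, ENNReal.ofReal_toReal (U_ne_top h.good x)]

/-- general functional in terms of `f` -/
noncomputable def EF {k : ℕ} (R : Fin k → E3) (z : Fin k → ℝ) (f : E3 → ℝ≥0∞) : ℝ :=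
  3 / 5 * (∫⁻ x, f x ^ ((5:ℝ)/3)).toReal - (∑ j, z j * (∫⁻ x, f x * K x (R j)).toReal)
    + 1 / 2 * (D f f).toReal
    + ∑ i, ∑ j, if i < j then z i * z j / dist (R i) (R j) else 0

lemma xi_eq {k : ℕ} (R : Fin k → E3) (z : Fin k → ℝ) {ρ : E3 → ℝ} {f : E3 → ℝ≥0∞} (h : Rep ρ f) :
    tfFunctional R z ρ = EF R z f := by
  unfold tfFunctional EF
  rw [h.integral53, h.integralD]
  have h1 : ∫ x, (∑ j, z j / dist x (R j)) * ρ x = ∑ j, z j * (∫⁻ x, f x * K x (R j)).toReal := by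
    have h2 : ∀ x, (∑ j, z j / dist x (R j)) * ρ x = ∑ j, z j * (ρ x / dist x (R j)) := by
      intro x
      rw [Finset.sum_mul]
      apply Finset.sum_congr rfl
      intro j _; ring
    simp only [h2]
    rw [integral_finsetSum]
    · apply Finset.sum_congr rfl
      intro j _
      rw [integral_const_mul, h.integralK]
    · intro j _
      exact (h.integrableK (R j)).const_mul _
  rw [h1]

lemma rep_of_good {f : E3 → ℝ≥0∞} (hf : Good f) : Rep (fun x => (f x).toReal) f := by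
  refine ⟨fun x => ENNReal.toReal_nonneg, ?_, hf⟩
  filter_upwards [ae_lt_top hf.meas hf.mass] with x hx
  exact ENNReal.ofReal_toReal hx.ne

lemma rep_of_admissible {N : ℝ} {ρ : E3 → ℝ} (h : Admissible N ρ) :
    ∃ f, Rep ρ f ∧ ∫⁻ x, f x = ENNReal.ofReal N := by
  have hae := h.int.aestronglyMeasurable.ae_eq_mk
  set ρ' := h.int.aestronglyMeasurable.mk ρ with hρ'
  have hm : Measurable ρ' := h.int.aestronglyMeasurable.stronglyMeasurable_mk.measurable
  have hae' : ∀ᵐ x, ENNReal.ofReal (ρ x) = ENNReal.ofReal (ρ' x) := by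
    filter_upwards [hae] with x hx
    rw [hx]
  have hmass : ∫⁻ x, ENNReal.ofReal (ρ' x) = ENNReal.ofReal N := by
    rw [← h.mass, ofReal_integral_eq_lintegral_ofReal h.int (Filter.Eventually.of_forall h.nonneg)]
    exact (lintegral_congr_ae hae').symm
  refine ⟨fun x => ENNReal.ofReal (ρ' x), ⟨h.nonneg, hae', ?_⟩, hmass⟩
  refine ⟨by fun_prop, ?_, ?_⟩
  · rw [hmass]; exact ENNReal.ofReal_ne_top
  · have h1 : ∫⁻ x, ENNReal.ofReal (ρ' x) ^ ((5:ℝ)/3) = ∫⁻ x, ENNReal.ofReal (ρ x ^ ((5:ℝ)/3)) := by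
      apply lintegral_congr_ae
      filter_upwards [hae'] with x hx
      rw [← hx, ENNReal.ofReal_rpow_of_nonneg (h.nonneg x) (by norm_num)]
    rw [h1, ← ofReal_integral_eq_lintegral_ofReal h.int53
      (Filter.Eventually.of_forall fun x => Real.rpow_nonneg (h.nonneg x) _)]
    exact ENNReal.ofReal_ne_top

/-- the set defining the energy, in terms of good functions -/
lemma energy_set {k : ℕ} (R : Fin k → E3) (z : Fin k → ℝ) (N : ℝ) (hN : 0 ≤ N) :
    {E : ℝ | ∃ ρ : E3 → ℝ, Admissible N ρ ∧ E = tfFunctional R z ρ} =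
    {E : ℝ | ∃ f : E3 → ℝ≥0∞, Good f ∧ ∫⁻ x, f x = ENNReal.ofReal N ∧ E = EF R z f} := by
  ext E
  constructor
  · rintro ⟨ρ, hρ, rfl⟩
    obtain ⟨f, hf, hm⟩ := rep_of_admissible hρ
    exact ⟨f, hf.good, hm, xi_eq R z hf⟩
  · rintro ⟨f, hf, hm, rfl⟩
    have hr := rep_of_good hf
    refine ⟨fun x => (f x).toReal, ⟨hr.nonneg, hr.integrable, hr.integrable53, ?_⟩, (xi_eq R z hr).symm⟩
    rw [hr.integral, hm, ENNReal.toReal_ofReal hN]

lemma EF_atom (z : ℝ) (f : E3 → ℝ≥0∞) : EF (fun _ : Fin 1 => (0 : E3)) (fun _ => z) f = EA z f := by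
  unfold EF EA
  simp

lemma atomicEnergy_eq (z : ℝ) (hz : 0 ≤ z) :
    atomicEnergy z = sInf {E : ℝ | ∃ f : E3 → ℝ≥0∞, Good f ∧ ∫⁻ x, f x = ENNReal.ofReal z ∧ E = EA z f} := by
  unfold atomicEnergy tfEnergy
  simp only [Finset.univ_unique, Finset.sum_const, Finset.card_singleton, one_smul]
  rw [energy_set _ _ z hz]
  simp only [EF_atom]

/-- lower bound for the attraction in reals -/
lemma attr_real {f : E3 → ℝ≥0∞} (hf : Good f) (a : E3) (z N r : ℝ) (hz : 0 ≤ z) (hN : 0 ≤ N)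
    (hr : 0 < r) (hm : ∫⁻ x, f x = ENNReal.ofReal N) :
    z * (∫⁻ x, f x * K x a).toReal ≤ 3/5 * (∫⁻ x, f x ^ ((5:ℝ)/3)).toReal +
      (2/5 * z ^ ((5:ℝ)/2) * (C52 r).toReal + z / r * N) := by
  have h := attr_bound f hf.meas a z r hz hr
  rw [hm] at h
  have h1 : ENNReal.ofReal (3/5) * (∫⁻ x, f x ^ ((5:ℝ)/3)) +
      (ENNReal.ofReal (2/5 * z ^ ((5:ℝ)/2)) * C52 r + ENNReal.ofReal (z / r) * ENNReal.ofReal N) ≠ ∞ :=
    ENNReal.add_ne_top.mpr ⟨ENNReal.mul_ne_top ENNReal.ofReal_ne_top hf.kin,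
      ENNReal.add_ne_top.mpr ⟨ENNReal.mul_ne_top ENNReal.ofReal_ne_top (C52_ne_top r),
        ENNReal.mul_ne_top ENNReal.ofReal_ne_top ENNReal.ofReal_ne_top⟩⟩
  have h2 := ENNReal.toReal_mono h1 h
  rw [ENNReal.toReal_add (ENNReal.mul_ne_top ENNReal.ofReal_ne_top hf.kin)
      (ENNReal.add_ne_top.mpr ⟨ENNReal.mul_ne_top ENNReal.ofReal_ne_top (C52_ne_top r),
        ENNReal.mul_ne_top ENNReal.ofReal_ne_top ENNReal.ofReal_ne_top⟩),
    ENNReal.toReal_add (ENNReal.mul_ne_top ENNReal.ofReal_ne_top (C52_ne_top r))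
      (ENNReal.mul_ne_top ENNReal.ofReal_ne_top ENNReal.ofReal_ne_top)] at h2
  simp only [ENNReal.toReal_mul] at h2
  rw [ENNReal.toReal_ofReal hz, ENNReal.toReal_ofReal (by norm_num), ENNReal.toReal_ofReal (by positivity),
    ENNReal.toReal_ofReal (by positivity), ENNReal.toReal_ofReal hN] at h2
  exact h2

lemma EA_ge {f : E3 → ℝ≥0∞} (hf : Good f) (z r : ℝ) (hz : 0 ≤ z) (hr : 0 < r)
    (hm : ∫⁻ x, f x = ENNReal.ofReal z) :
    -(2/5 * z ^ ((5:ℝ)/2) * (C52 r).toReal + z / r * z) ≤ EA z f := by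
  have h1 := attr_real hf 0 z z r hz hz hr hm
  have h2 : 0 ≤ (D f f).toReal := ENNReal.toReal_nonneg
  unfold EA
  linarith

lemma bddBelow_EA (z : ℝ) (hz : 0 ≤ z) :
    BddBelow {E : ℝ | ∃ f : E3 → ℝ≥0∞, Good f ∧ ∫⁻ x, f x = ENNReal.ofReal z ∧ E = EA z f} := by
  refine ⟨-(2/5 * z ^ ((5:ℝ)/2) * (C52 1).toReal + z / 1 * z), ?_⟩
  rintro E ⟨f, hf, hm, rfl⟩
  exact EA_ge hf z 1 hz one_pos hm

lemma atomicEnergy_le {f : E3 → ℝ≥0∞} (hf : Good f) (z : ℝ) (hz : 0 ≤ z)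
    (hm : ∫⁻ x, f x = ENNReal.ofReal z) : atomicEnergy z ≤ EA z f := by
  rw [atomicEnergy_eq z hz]
  exact csInf_le (bddBelow_EA z hz) ⟨f, hf, hm, rfl⟩

/-- uniform ball competitor -/
lemma ball_rad (z r : ℝ) (hz : 0 ≤ z) (hr : 0 < r) : ∃ g, Rad z g ∧
    EA z (fun x => g ‖x‖) ≤ 3/5 * (z ^ ((5:ℝ)/3) * (volume.real (ball (0:E3) r)) ^ (-(2:ℝ)/3)) := by
  set v : ℝ := volume.real (ball (0:E3) r) with hv
  have hvtop : volume (ball (0:E3) r) ≠ ∞ := measure_ball_lt_top.ne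
  have hv0 : 0 < v := ENNReal.toReal_pos (measure_ball_pos _ _ hr).ne' hvtop
  have hvo : ENNReal.ofReal v = volume (ball (0:E3) r) := ENNReal.ofReal_toReal hvtop
  set c : ℝ := z / v with hc
  have hc0 : 0 ≤ c := by positivity
  set g : ℝ → ℝ≥0∞ := (Iio r).indicator (fun _ => ENNReal.ofReal c) with hg
  have hgm : Measurable g := measurable_const.indicator measurableSet_Iio
  have hgx : ∀ x : E3, g ‖x‖ = (ball (0:E3) r).indicator (fun _ => ENNReal.ofReal c) x := by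
    intro x
    by_cases h : x ∈ ball (0:E3) r
    · rw [indicator_of_mem h, hg, indicator_of_mem (by simpa using h)]
    · rw [indicator_of_notMem h, hg, indicator_of_notMem (by simpa using h)]
  have hmass : ∫⁻ x : E3, g ‖x‖ = ENNReal.ofReal z := by
    simp only [hgx]
    rw [lintegral_indicator_const measurableSet_ball, ← hvo, ← ENNReal.ofReal_mul hc0]
    congr 1
    rw [hc]; field_simp
  have hkin : ∫⁻ x : E3, g ‖x‖ ^ ((5:ℝ)/3) = ENNReal.ofReal (z ^ ((5:ℝ)/3) * v ^ (-(2:ℝ)/3)) := by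
    have h1 : ∀ x : E3, g ‖x‖ ^ ((5:ℝ)/3) =
        (ball (0:E3) r).indicator (fun _ => ENNReal.ofReal (c ^ ((5:ℝ)/3))) x := by
      intro x
      rw [hgx x]
      by_cases h : x ∈ ball (0:E3) r
      · rw [indicator_of_mem h, indicator_of_mem h, ENNReal.ofReal_rpow_of_nonneg hc0 (by norm_num)]
      · rw [indicator_of_notMem h, indicator_of_notMem h, ENNReal.zero_rpow_of_pos (by norm_num)]
    simp only [h1]
    rw [lintegral_indicator_const measurableSet_ball, ← hvo, ← ENNReal.ofReal_mul (by positivity)]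
    congr 1
    rw [hc, Real.div_rpow hz hv0.le, div_mul_eq_mul_div, mul_div_assoc]
    congr 1
    rw [div_eq_iff (by positivity), ← Real.rpow_add hv0]
    norm_num
  have hgood : Good (fun x : E3 => g ‖x‖) := by
    refine ⟨by fun_prop, ?_, ?_⟩
    · rw [hmass]; exact ENNReal.ofReal_ne_top
    · rw [hkin]; exact ENNReal.ofReal_ne_top
  refine ⟨g, ⟨hgm, hgood, hmass⟩, ?_⟩
  have hD : D (fun x : E3 => g ‖x‖) (fun x => g ‖x‖) ≤
      (∫⁻ x : E3, g ‖x‖ * K x 0) * ENNReal.ofReal z := by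
    unfold D
    have hKm : Measurable (fun x : E3 => K x 0) := by unfold K; fun_prop
    rw [← lintegral_mul_const _ (by fun_prop)]
    apply lintegral_mono_ae
    filter_upwards [Measure.ae_ne (volume : Measure E3) 0] with x hx
    rw [U_radial hgm, mul_assoc, K_zero, ← hmass]
    gcongr
    exact Rp_le _ (norm_pos_iff.mpr hx) hgm
  have hD2 := ENNReal.toReal_mono (ENNReal.mul_ne_top (attr_ne_top hgood 0) ENNReal.ofReal_ne_top) hD
  rw [ENNReal.toReal_mul, ENNReal.toReal_ofReal hz] at hD2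
  unfold EA
  rw [hkin, ENNReal.toReal_ofReal (by positivity)]
  have h0 : 0 ≤ (∫⁻ x : E3, g ‖x‖ * K x 0).toReal := ENNReal.toReal_nonneg
  nlinarith [mul_nonneg hz h0]

lemma atomicEnergy_nonpos (z : ℝ) (hz : 0 ≤ z) : atomicEnergy z ≤ 0 := by
  set v1 : ℝ := volume.real (ball (0:E3) 1) with hv1
  have hv1p : 0 < v1 := ENNReal.toReal_pos (measure_ball_pos _ _ one_pos).ne' measure_ball_lt_top.ne
  have h1 : ∀ r : ℝ, 0 < r → atomicEnergy z ≤ 3/5 * z ^ ((5:ℝ)/3) * v1 ^ (-(2:ℝ)/3) * (r ^ 2)⁻¹ := by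
    intro r hr
    obtain ⟨g, hg, hge⟩ := ball_rad z r hz hr
    have h2 := atomicEnergy_le hg.good z hz hg.mass
    have h3 : volume.real (ball (0:E3) r) = r ^ 3 * v1 := by
      have := Measure.addHaar_ball (volume : Measure E3) 0 hr.le
      simp only [Measure.real, hv1]
      rw [this, ENNReal.toReal_mul, ENNReal.toReal_ofReal (by positivity)]
      simp
    rw [h3, Real.mul_rpow (by positivity) hv1p.le, ← Real.rpow_natCast r 3, ← Real.rpow_mul hr.le] at hge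
    have h4 : r ^ (((3:ℕ):ℝ) * (-(2:ℝ)/3)) = (r ^ 2)⁻¹ := by
      rw [show ((3:ℕ):ℝ) * (-(2:ℝ)/3) = -2 by norm_num, Real.rpow_neg hr.le]
      norm_num
    rw [h4] at hge
    calc atomicEnergy z ≤ _ := h2
      _ ≤ _ := hge
      _ = _ := by ring
  by_contra hcon
  push Not at hcon
  set A : ℝ := 3/5 * z ^ ((5:ℝ)/3) * v1 ^ (-(2:ℝ)/3) with hA
  have hA0 : 0 ≤ A := by positivity
  have h5 := h1 (A / atomicEnergy z + 1) (by positivity)
  have h6 : 1 ≤ A / atomicEnergy z + 1 := by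
    have : 0 ≤ A / atomicEnergy z := by positivity
    linarith
  have h7 : A * ((A / atomicEnergy z + 1) ^ 2)⁻¹ < atomicEnergy z := by
    rw [← div_eq_mul_inv, div_lt_iff₀ (by positivity)]
    have h8 : A < atomicEnergy z * (A / atomicEnergy z + 1) := by
      have : atomicEnergy z * (A / atomicEnergy z + 1) = A + atomicEnergy z := by field_simp
      rw [this]; linarith
    calc A < atomicEnergy z * (A / atomicEnergy z + 1) := h8
      _ ≤ atomicEnergy z * (A / atomicEnergy z + 1) ^ 2 := by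
        apply mul_le_mul_of_nonneg_left _ hcon.le
        nlinarith
  linarith

lemma near_min (z : ℝ) (hz : 0 ≤ z) : ∃ g, Rad z g ∧ EA z (fun x => g ‖x‖) ≤ atomicEnergy z + 1 := by
  have hne : {E : ℝ | ∃ f : E3 → ℝ≥0∞, Good f ∧ ∫⁻ x, f x = ENNReal.ofReal z ∧ E = EA z f}.Nonempty := by
    obtain ⟨g, hg, -⟩ := ball_rad z 1 hz one_pos
    exact ⟨_, _, hg.good, hg.mass, rfl⟩
  have h1 : sInf {E : ℝ | ∃ f : E3 → ℝ≥0∞, Good f ∧ ∫⁻ x, f x = ENNReal.ofReal z ∧ E = EA z f} <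
      atomicEnergy z + 1 := by rw [← atomicEnergy_eq z hz]; linarith
  obtain ⟨E, ⟨f, hf, hm, rfl⟩, hE⟩ := exists_lt_of_csInf_lt hne h1
  obtain ⟨g, hgm, hgg, hgz, hge⟩ := radial_reduction z f hf
  exact ⟨g, ⟨hgm, hgg, by rw [hgz, hm]⟩, by linarith⟩

lemma atomicEnergy_zero : atomicEnergy 0 = 0 := by
  apply le_antisymm (atomicEnergy_nonpos 0 le_rfl)
  rw [atomicEnergy_eq 0 le_rfl]
  apply le_csInf
  · obtain ⟨g, hg, -⟩ := ball_rad 0 1 le_rfl one_pos
    exact ⟨_, _, hg.good, hg.mass, rfl⟩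
  · rintro E ⟨f, hf, hm, rfl⟩
    unfold EA
    have h1 : 0 ≤ (∫⁻ x, f x ^ ((5:ℝ)/3)).toReal := ENNReal.toReal_nonneg
    have h2 : 0 ≤ (D f f).toReal := ENNReal.toReal_nonneg
    linarith

/-- lower bound -/
lemma atomicEnergy_ge (z r : ℝ) (hz : 0 ≤ z) (hr : 0 < r) :
    -(2/5 * z ^ ((5:ℝ)/2) * (C52 r).toReal + z / r * z) ≤ atomicEnergy z := by
  rw [atomicEnergy_eq z hz]
  apply le_csInf
  · obtain ⟨g, hg, -⟩ := ball_rad z 1 hz one_pos
    exact ⟨_, _, hg.good, hg.mass, rfl⟩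
  · rintro E ⟨f, hf, hm, rfl⟩
    exact EA_ge hf z r hz hr hm

/-- translated functional -/
lemma translate {f : E3 → ℝ≥0∞} (hf : Good f) (a : E3) :
    Good (fun x => f (x + a)) ∧ (∫⁻ x, f (x + a) = ∫⁻ x, f x) ∧
    (∫⁻ x, f (x + a) ^ ((5:ℝ)/3) = ∫⁻ x, f x ^ ((5:ℝ)/3)) ∧
    (∀ b, ∫⁻ x, f (x + a) * K x b = ∫⁻ x, f x * K x (a + b)) ∧
    D (fun x => f (x + a)) (fun x => f (x + a)) = D f f := by
  have h1 : ∫⁻ x, f (x + a) = ∫⁻ x, f x := lintegral_add_right_eq_self f a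
  have h2 : ∫⁻ x, f (x + a) ^ ((5:ℝ)/3) = ∫⁻ x, f x ^ ((5:ℝ)/3) :=
    lintegral_add_right_eq_self (fun x => f x ^ ((5:ℝ)/3)) a
  have h3 : ∀ b, ∫⁻ x, f (x + a) * K x b = ∫⁻ x, f x * K x (a + b) := by
    intro b
    have := lintegral_add_right_eq_self (μ := (volume : Measure E3)) (fun x => f x * K x (a + b)) a
    rw [← this]
    apply lintegral_congr
    intro x
    congr 1
    rw [K_eq, K_eq]
    congr 3
    abel
  have h4 : ∀ x, U (fun x => f (x + a)) x = U f (x + a) := by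
    intro x
    rw [U_eq, U_eq, h3 x, add_comm a x]
  refine ⟨⟨by have := hf.meas; fun_prop, by rw [h1]; exact hf.mass, by rw [h2]; exact hf.kin⟩,
    h1, h2, h3, ?_⟩
  unfold D
  simp only [h4]
  exact lintegral_add_right_eq_self (fun x => f x * U f x) a

/-- two centre functional -/
noncomputable def EM (t : ℝ) (a b : E3) (f : E3 → ℝ≥0∞) : ℝ :=
  3 / 5 * (∫⁻ x, f x ^ ((5:ℝ)/3)).toReal - (t * (∫⁻ x, f x * K x a).toReal +
    t * (∫⁻ x, f x * K x b).toReal) + 1 / 2 * (D f f).toReal + t * t / dist a b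

/-- two equal charges -/
def zz {k : ℕ} (i0 i1 : Fin k) (t : ℝ) (j : Fin k) : ℝ :=
  (if j = i0 then t else 0) + (if j = i1 then t else 0)

lemma zz_sum {k : ℕ} (i0 i1 : Fin k) (t : ℝ) (P : Fin k → ℝ) :
    ∑ j, zz i0 i1 t j * P j = t * P i0 + t * P i1 := by
  unfold zz
  simp [add_mul, Finset.sum_add_distrib, ite_mul]

lemma EF_zz {k : ℕ} (R : Fin k → E3) (i0 i1 : Fin k) (h01 : i0 < i1) (t : ℝ) (f : E3 → ℝ≥0∞) :
    EF R (zz i0 i1 t) f = EM t (R i0) (R i1) f := by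
  unfold EF EM
  rw [zz_sum]
  congr 1
  rw [Finset.sum_eq_single i0]
  · rw [Finset.sum_eq_single i1]
    · rw [if_pos h01]
      have h1 : zz i0 i1 t i0 = t := by unfold zz; simp [h01.ne]
      have h2 : zz i0 i1 t i1 = t := by unfold zz; simp [h01.ne']
      rw [h1, h2]
    · intro j _ hj
      by_cases h : i0 < j
      · rw [if_pos h]
        have : zz i0 i1 t j = 0 := by unfold zz; simp [h.ne', hj]
        rw [this]; simp
      · rw [if_neg h]
    · intro h; exact absurd (Finset.mem_univ _) h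
  · intro i _ hi
    apply Finset.sum_eq_zero
    intro j _
    by_cases h : i < j
    · rw [if_pos h]
      by_cases hi1 : i = i1
      · have hj0 : j ≠ i0 := by rintro rfl; subst hi1; exact absurd (h.trans h01) (lt_irrefl _)
        have hj1 : j ≠ i1 := by rintro rfl; subst hi1; exact lt_irrefl _ h
        have : zz i0 i1 t j = 0 := by unfold zz; simp [hj0, hj1]
        rw [this]; simp
      · have : zz i0 i1 t i = 0 := by unfold zz; simp [hi, hi1]
        rw [this]; simp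
    · rw [if_neg h]
  · intro h; exact absurd (Finset.mem_univ _) h

/-- lower bound for the two centre functional -/
lemma EM_ge {f : E3 → ℝ≥0∞} (hf : Good f) (t : ℝ) (ht : 0 ≤ t) (a b : E3)
    (hm : ∫⁻ x, f x = ENNReal.ofReal (2 * t)) :
    atomicEnergy (2 * t) + t * t / dist a b ≤ EM t a b f := by
  have key : ∀ c : E3, atomicEnergy (2 * t) ≤ 3 / 5 * (∫⁻ x, f x ^ ((5:ℝ)/3)).toReal -
      2 * t * (∫⁻ x, f x * K x c).toReal + 1 / 2 * (D f f).toReal := by
    intro c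
    obtain ⟨h1, h2, h3, h4, h5⟩ := translate hf c
    have h6 := atomicEnergy_le h1 (2 * t) (by positivity) (by rw [h2, hm])
    unfold EA at h6
    rw [h3, h4 0, h5, add_zero] at h6
    exact h6
  have ha := key a
  have hb := key b
  unfold EM
  linarith

/-- neutral radial compactly supported atoms do not interact -/
lemma EM_trial (t r0 : ℝ) (ht : 0 ≤ t) (hr0 : 0 < r0) (a b : E3) (hd : 2 * r0 < dist a b)
    (g : ℝ → ℝ≥0∞) (hg : Rad t g) (hs : ∀ r, r0 < r → g r = 0) :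
    ∃ f, Good f ∧ ∫⁻ x, f x = ENNReal.ofReal (2 * t) ∧
      EM t a b f = 2 * EA t (fun x => g ‖x‖) := by
  have hgm := hg.meas
  set F : E3 → ℝ≥0∞ := fun x => g ‖x‖ with hF
  have hd0 : 0 < dist a b := by linarith
  obtain ⟨ga, ma, ka, pa, da⟩ := translate hg.good (-a)
  obtain ⟨gb, mb, kb, pb, db⟩ := translate hg.good (-b)
  have hUa : ∀ x, U (fun x => F (x + -a)) x = U F (x + -a) := by
    intro x
    rw [U_eq, U_eq, pa x, add_comm]
  have hUb : ∀ x, U (fun x => F (x + -b)) x = U F (x + -b) := by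
    intro x
    rw [U_eq, U_eq, pb x, add_comm]
  have hout : ∀ y : E3, r0 ≤ ‖y‖ → U F y = ENNReal.ofReal (‖y‖⁻¹) * ENNReal.ofReal t := by
    intro y hy
    rw [hF, U_radial hgm, Rp_eq ‖y‖ r0 (by linarith) hgm hy hs, hg.mass]
  set fa : E3 → ℝ≥0∞ := fun x => F (x + -a) with hfa
  set fb : E3 → ℝ≥0∞ := fun x => F (x + -b) with hfb
  have hdab : ‖a + -b‖ = dist a b := by rw [← sub_eq_add_neg, dist_eq_norm]
  have hdba : ‖b + -a‖ = dist a b := by rw [← sub_eq_add_neg, ← dist_eq_norm, dist_comm]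
  -- attraction to the other nucleus
  have hPab : ∫⁻ x, fb x * K x a = ENNReal.ofReal ((dist a b)⁻¹) * ENNReal.ofReal t := by
    rw [← U_eq, hUb, hout _ (by rw [hdab]; linarith), hdab]
  have hPba : ∫⁻ x, fa x * K x b = ENNReal.ofReal ((dist a b)⁻¹) * ENNReal.ofReal t := by
    rw [← U_eq, hUa, hout _ (by rw [hdba]; linarith), hdba]
  have hPaa : ∫⁻ x, fa x * K x a = ∫⁻ x, F x * K x 0 := by
    rw [hfa]; simp only; rw [pa a, neg_add_cancel]
  have hPbb : ∫⁻ x, fb x * K x b = ∫⁻ x, F x * K x 0 := by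
    rw [hfb]; simp only; rw [pb b, neg_add_cancel]
  -- disjointness
  have hdisj : ∀ x, fa x = 0 ∨ fb x = 0 := by
    intro x
    by_contra hcon
    push Not at hcon
    obtain ⟨h1, h2⟩ := hcon
    have h3 : ‖x + -a‖ ≤ r0 := by
      by_contra h; exact h1 (hs _ (not_le.mp h))
    have h4 : ‖x + -b‖ ≤ r0 := by
      by_contra h; exact h2 (hs _ (not_le.mp h))
    have h5 : dist a b ≤ ‖x + -a‖ + ‖x + -b‖ := by
      have : dist a b ≤ dist a x + dist x b := dist_triangle _ _ _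
      rw [dist_comm a x, dist_eq_norm x a, dist_eq_norm x b] at this
      simpa [sub_eq_add_neg] using this
    linarith
  have hDab : D fa fb = ENNReal.ofReal t * (ENNReal.ofReal ((dist a b)⁻¹) * ENNReal.ofReal t) := by
    rw [← hPba]
    unfold D
    have hKm : Measurable (fun x : E3 => K x b) := by unfold K; fun_prop
    have hm : Measurable (fun x => fa x * K x b) := ga.meas.mul hKm
    rw [← lintegral_const_mul _ hm]
    apply lintegral_congr
    intro x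
    by_cases hx : fa x = 0
    · rw [hx]; simp
    · have h3 : ‖x + -a‖ ≤ r0 := by
        by_contra h; exact hx (hs _ (not_le.mp h))
      have h4 : r0 ≤ ‖x + -b‖ := by
        have : dist a b ≤ dist a x + dist x b := dist_triangle _ _ _
        rw [dist_comm a x, dist_eq_norm x a, dist_eq_norm x b, sub_eq_add_neg, sub_eq_add_neg] at this
        linarith
      rw [hUb, hout _ h4, K_eq, sub_eq_add_neg]
      ring
  refine ⟨fun x => fa x + fb x, ga.add gb, ?_, ?_⟩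
  · have hmF : ∫⁻ x, F x = ENNReal.ofReal t := hg.mass
    rw [lintegral_add_left ga.meas, ma, mb, hmF, ← ENNReal.ofReal_add ht ht]
    congr 1; ring
  · have hkin : ∫⁻ x, (fa x + fb x) ^ ((5:ℝ)/3) = (∫⁻ x, F x ^ ((5:ℝ)/3)) + ∫⁻ x, F x ^ ((5:ℝ)/3) := by
      have h1 : ∀ x, (fa x + fb x) ^ ((5:ℝ)/3) = fa x ^ ((5:ℝ)/3) + fb x ^ ((5:ℝ)/3) := by
        intro x
        rcases hdisj x with h | h
        · rw [h, zero_add, ENNReal.zero_rpow_of_pos (by norm_num), zero_add]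
        · rw [h, add_zero, ENNReal.zero_rpow_of_pos (by norm_num), add_zero]
      simp only [h1]
      rw [lintegral_add_left (by have := ga.meas; fun_prop)]
      exact congrArg₂ (· + ·) ka kb
    have hatt : ∀ c : E3, ∫⁻ x, (fa x + fb x) * K x c = (∫⁻ x, fa x * K x c) + ∫⁻ x, fb x * K x c := by
      intro c
      have hKm : Measurable (fun x : E3 => K x c) := by unfold K; fun_prop
      have hm : Measurable (fun x => fa x * K x c) := ga.meas.mul hKm
      rw [← lintegral_add_left hm]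
      apply lintegral_congr; intro x; ring
    have hab : Measurable (fun x => fa x + fb x) := ga.meas.add gb.meas
    have hDD : D (fun x => fa x + fb x) (fun x => fa x + fb x) = D F F + D fa fb + (D fa fb + D F F) := by
      rw [D_add_left ga.meas hab, D_add_right ga.meas gb.meas ga.meas,
        D_add_right ga.meas gb.meas gb.meas, da, db, D_comm gb.meas ga.meas]
    unfold EM EA
    simp only
    have hk := hg.good.kin
    have hDF := D_ne_top hg.good hg.good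
    have hPF := attr_ne_top hg.good 0
    have hDabt : D fa fb ≠ ∞ := D_ne_top ga gb
    rw [hkin, hatt a, hatt b, hPaa, hPbb, hPab, hPba, hDD,
      ENNReal.toReal_add hk hk,
      ENNReal.toReal_add hPF (ENNReal.mul_ne_top ENNReal.ofReal_ne_top ENNReal.ofReal_ne_top),
      ENNReal.toReal_add (ENNReal.mul_ne_top ENNReal.ofReal_ne_top ENNReal.ofReal_ne_top) hPF,
      ENNReal.toReal_add (ENNReal.add_ne_top.mpr ⟨hDF, hDabt⟩) (ENNReal.add_ne_top.mpr ⟨hDabt, hDF⟩),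
      ENNReal.toReal_add hDF hDabt, ENNReal.toReal_add hDabt hDF, hDab]
    simp only [ENNReal.toReal_mul]
    rw [ENNReal.toReal_ofReal ht, ENNReal.toReal_ofReal (by positivity)]
    rw [div_eq_mul_inv (t * t)]
    ring

lemma zz_total {k : ℕ} (i0 i1 : Fin k) (t : ℝ) : ∑ j, zz i0 i1 t j = 2 * t := by
  have := zz_sum i0 i1 t (fun _ => 1)
  simp only [mul_one] at this
  rw [this]; ring

lemma tfEnergy_zz {k : ℕ} (R : Fin k → E3) (i0 i1 : Fin k) (h01 : i0 < i1) (t : ℝ) (ht : 0 ≤ t) :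
    tfEnergy R (zz i0 i1 t) = sInf {E : ℝ | ∃ f : E3 → ℝ≥0∞, Good f ∧
      ∫⁻ x, f x = ENNReal.ofReal (2 * t) ∧ E = EM t (R i0) (R i1) f} := by
  unfold tfEnergy
  rw [zz_total, energy_set _ _ _ (by positivity)]
  simp only [EF_zz R i0 i1 h01]

lemma inter_zz {k : ℕ} (R : Fin k → E3) (i0 i1 : Fin k) (h01 : i0 < i1) (t : ℝ) :
    interaction R (zz i0 i1 t) = tfEnergy R (zz i0 i1 t) - 2 * atomicEnergy t := by
  unfold interaction
  congr 1
  have h1 : ∀ j, atomicEnergy (zz i0 i1 t j) = (if j = i0 then atomicEnergy t else 0) + (if j = i1 then atomicEnergy t else 0) := by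
    intro j
    unfold zz
    by_cases h0 : j = i0
    · subst h0
      simp [h01.ne]
    · by_cases h1 : j = i1
      · subst h1
        simp [h0]
      · simp [h0, h1, atomicEnergy_zero]
  simp only [h1]
  rw [Finset.sum_add_distrib]
  simp
  ring

lemma EM_bdd (t : ℝ) (ht : 0 ≤ t) (a b : E3) :
    BddBelow {E : ℝ | ∃ f : E3 → ℝ≥0∞, Good f ∧
      ∫⁻ x, f x = ENNReal.ofReal (2 * t) ∧ E = EM t a b f} := by
  refine ⟨atomicEnergy (2 * t) + t * t / dist a b, ?_⟩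
  rintro E ⟨f, hf, hm, rfl⟩
  exact EM_ge hf t ht a b hm

lemma EM_nonempty (t : ℝ) (ht : 0 ≤ t) (a b : E3) :
    {E : ℝ | ∃ f : E3 → ℝ≥0∞, Good f ∧
      ∫⁻ x, f x = ENNReal.ofReal (2 * t) ∧ E = EM t a b f}.Nonempty := by
  obtain ⟨g, hg, -⟩ := ball_rad (2 * t) 1 (by positivity) one_pos
  exact ⟨_, _, hg.good, hg.mass, rfl⟩

/-- lower bound of the interaction for equal charges -/
lemma inter_lower {k : ℕ} (R : Fin k → E3) (i0 i1 : Fin k) (h01 : i0 < i1) (t : ℝ) (ht : 0 ≤ t) :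
    atomicEnergy (2 * t) + t * t / dist (R i0) (R i1) ≤ interaction R (zz i0 i1 t) := by
  rw [inter_zz R i0 i1 h01, tfEnergy_zz R i0 i1 h01 t ht]
  have h1 : atomicEnergy (2 * t) + t * t / dist (R i0) (R i1) ≤ sInf {E : ℝ | ∃ f : E3 → ℝ≥0∞, Good f ∧
      ∫⁻ x, f x = ENNReal.ofReal (2 * t) ∧ E = EM t (R i0) (R i1) f} := by
    apply le_csInf (EM_nonempty t ht _ _)
    rintro E ⟨f, hf, hm, rfl⟩
    exact EM_ge hf t ht _ _ hm
  have h2 := atomicEnergy_nonpos t ht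
  linarith

lemma inter_pos {k : ℕ} (R : Fin k → E3) (hR : Function.Injective R) (i0 i1 : Fin k) (h01 : i0 < i1) :
    ∃ t : ℝ, 0 < t ∧ 0 < interaction R (zz i0 i1 t) := by
  set d : ℝ := dist (R i0) (R i1) with hd
  have hd0 : 0 < d := dist_pos.mpr (fun h => h01.ne (hR h))
  set C : ℝ := (C52 (8 * d)).toReal with hC
  have hC0 : 0 ≤ C := ENNReal.toReal_nonneg
  set A : ℝ := 2/5 * 2 ^ ((5:ℝ)/2) * C with hA
  have hA0 : 0 ≤ A := by positivity
  set δ : ℝ := 1 / (2 * d * (A + 1)) with hδ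
  have hδ0 : 0 < δ := by positivity
  refine ⟨δ ^ 2, by positivity, ?_⟩
  have h1 := inter_lower R i0 i1 h01 (δ ^ 2) (by positivity)
  have h2 := atomicEnergy_ge (2 * δ ^ 2) (8 * d) (by positivity) (by positivity)
  have h3 : (2 * δ ^ 2) ^ ((5:ℝ)/2) = 2 ^ ((5:ℝ)/2) * δ ^ 5 := by
    rw [Real.mul_rpow (by norm_num) (by positivity), ← Real.rpow_natCast δ 2,
      ← Real.rpow_mul hδ0.le, ← Real.rpow_natCast δ 5]
    norm_num
  rw [h3, ← hC] at h2
  have h4 : A * δ < 1 / (2 * d) := by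
    have : A * δ = (A / (A + 1)) * (1 / (2 * d)) := by
      rw [hδ]; field_simp
    rw [this]
    have h5 : A / (A + 1) < 1 := by rw [div_lt_one (by positivity)]; linarith
    have h6 : 0 < 1 / (2 * d) := by positivity
    nlinarith
  have h5 : 2/5 * (2 ^ ((5:ℝ)/2) * δ ^ 5) * C = (A * δ) * δ ^ 4 := by rw [hA]; ring
  rw [h5] at h2
  have h6 : (A * δ) * δ ^ 4 < 1 / (2 * d) * δ ^ 4 := by
    apply mul_lt_mul_of_pos_right h4; positivity
  have h7 : 2 * δ ^ 2 / (8 * d) * (2 * δ ^ 2) = 1 / (2 * d) * δ ^ 4 := by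
    field_simp; ring
  have h8 : δ ^ 2 * δ ^ 2 / d = 2 * (1 / (2 * d) * δ ^ 4) := by
    field_simp
  rw [h7] at h2
  rw [h8] at h1
  linarith

lemma inter_upper {k : ℕ} (R : Fin k → E3) (hR : Function.Injective R) (i0 i1 : Fin k) (h01 : i0 < i1) :
    ∃ C : ℝ, 0 ≤ C ∧ ∀ t : ℝ, 1 ≤ t → interaction R (zz i0 i1 t) ≤ 2 + C * t ^ ((8:ℝ)/9) := by
  set d : ℝ := dist (R i0) (R i1) with hd
  have hd0 : 0 < d := dist_pos.mpr (fun h => h01.ne (hR h))
  obtain ⟨C, hC0, hC⟩ := compact_trial (d / 256) (by positivity)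
  refine ⟨2 * C, by positivity, ?_⟩
  intro t ht
  have ht0 : 0 ≤ t := by linarith
  obtain ⟨g, hg, hs, he⟩ := hC t ht (atomicEnergy t) (fun g hg => atomicEnergy_le hg.good t ht0 hg.mass)
    (near_min t ht0)
  obtain ⟨f, hf, hm, hE⟩ := EM_trial t (64 * (d / 256)) ht0 (by positivity) (R i0) (R i1)
    (by rw [← hd]; linarith) g hg hs
  rw [inter_zz R i0 i1 h01, tfEnergy_zz R i0 i1 h01 t ht0]
  have h1 := csInf_le (EM_bdd t ht0 (R i0) (R i1)) ⟨f, hf, hm, rfl⟩
  rw [hE] at h1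
  linarith

/-- Sanity check (not used below): the set whose infimum defines `tfEnergy R z` is nonempty and
bounded below, for every configuration and all charges `z ≥ 0`. -/
lemma energySet_nonempty_bddBelow {k : ℕ} (R : Fin k → E3) (z : Fin k → ℝ) (hz : ∀ i, 0 ≤ z i) :
    {E : ℝ | ∃ ρ : E3 → ℝ, Admissible (∑ j, z j) ρ ∧ E = tfFunctional R z ρ}.Nonempty ∧
    BddBelow {E : ℝ | ∃ ρ : E3 → ℝ, Admissible (∑ j, z j) ρ ∧ E = tfFunctional R z ρ} := by
  set Z : ℝ := ∑ j, z j with hZ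
  have hZ0 : 0 ≤ Z := Finset.sum_nonneg (fun i _ => hz i)
  rw [energy_set R z Z hZ0]
  constructor
  · obtain ⟨g, hg, -⟩ := ball_rad Z 1 hZ0 one_pos
    exact ⟨_, _, hg.good, hg.mass, rfl⟩
  · set c : ℝ := 2/5 * Z ^ ((5:ℝ)/2) * (C52 1).toReal + Z / 1 * Z with hc
    have hc0 : 0 ≤ c := by positivity
    refine ⟨-c + ∑ i, ∑ j, (if i < j then z i * z j / dist (R i) (R j) else 0), ?_⟩
    rintro E ⟨f, hf, hm, rfl⟩
    have hT : 0 ≤ (∫⁻ x, f x ^ ((5:ℝ)/3)).toReal := ENNReal.toReal_nonneg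
    have hD : 0 ≤ (D f f).toReal := ENNReal.toReal_nonneg
    have hsum : ∑ j, z j * (∫⁻ x, f x * K x (R j)).toReal ≤
        3/5 * (∫⁻ x, f x ^ ((5:ℝ)/3)).toReal + c := by
      rcases eq_or_lt_of_le hZ0 with h0 | h0
      · have hz0 : ∀ j, z j = 0 := by
          intro j
          have := (Finset.sum_eq_zero_iff_of_nonneg (fun i _ => hz i)).mp h0.symm
          exact this j (Finset.mem_univ j)
        simp only [hz0, zero_mul, Finset.sum_const_zero]
        positivity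
      · have h1 : ∀ j, z j * (∫⁻ x, f x * K x (R j)).toReal ≤
            z j / Z * (3/5 * (∫⁻ x, f x ^ ((5:ℝ)/3)).toReal + c) := by
          intro j
          have h2 := attr_real hf (R j) Z Z 1 hZ0 hZ0 one_pos hm
          have h3 : z j * (∫⁻ x, f x * K x (R j)).toReal =
              z j / Z * (Z * (∫⁻ x, f x * K x (R j)).toReal) := by
            field_simp
          rw [h3]
          exact mul_le_mul_of_nonneg_left h2 (div_nonneg (hz j) hZ0)
        calc ∑ j, z j * (∫⁻ x, f x * K x (R j)).toReal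
            ≤ ∑ j, z j / Z * (3/5 * (∫⁻ x, f x ^ ((5:ℝ)/3)).toReal + c) :=
              Finset.sum_le_sum (fun j _ => h1 j)
          _ = 3/5 * (∫⁻ x, f x ^ ((5:ℝ)/3)).toReal + c := by
              rw [← Finset.sum_mul, ← Finset.sum_div, ← hZ, div_self h0.ne', one_mul]
    unfold EF
    linarith

/-- **Main result.** For every `k ≥ 2` and all distinct `R₁, …, R_k ∈ ℝ³` the function `e - ẽ` is
not superadditive on `ℝ^k_+`. -/
theorem result (k : ℕ) (hk : 2 ≤ k) (R : Fin k → E3) (hR : Function.Injective R) :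
    ∃ z w : Fin k → ℝ, (∀ i, 0 ≤ z i) ∧ (∀ i, 0 ≤ w i) ∧
      interaction R (z + w) < interaction R z + interaction R w := by
  set i0 : Fin k := ⟨0, by omega⟩
  set i1 : Fin k := ⟨1, by omega⟩
  have h01 : i0 < i1 := by
    rw [Fin.lt_def]; exact Nat.zero_lt_one
  by_contra hcon
  push Not at hcon
  have hzn : ∀ t : ℝ, 0 ≤ t → ∀ i, 0 ≤ zz i0 i1 t i := by
    intro t ht i
    unfold zz
    split_ifs <;> linarith
  have hadd : ∀ s t : ℝ, zz i0 i1 (s + t) = zz i0 i1 s + zz i0 i1 t := by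
    intro s t
    funext j
    simp only [zz, Pi.add_apply]
    split_ifs <;> ring
  obtain ⟨t0, ht0, hpos⟩ := inter_pos R hR i0 i1 h01
  obtain ⟨C, hC0, hC⟩ := inter_upper R hR i0 i1 h01
  have hind : ∀ n : ℕ, (n + 1 : ℝ) * interaction R (zz i0 i1 t0) ≤ interaction R (zz i0 i1 ((n + 1 : ℝ) * t0)) := by
    intro n
    induction n with
    | zero => simp
    | succ n ih =>
      have h1 := hcon (zz i0 i1 ((n + 1 : ℝ) * t0)) (zz i0 i1 t0) (hzn _ (by positivity))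
        (hzn _ ht0.le)
      rw [← hadd] at h1
      push_cast
      have h2 : ((n : ℝ) + 1) * t0 + t0 = ((n : ℝ) + 1 + 1) * t0 := by ring
      rw [h2] at h1
      linarith
  -- choose n + 1 = N ^ 9
  obtain ⟨N, hN⟩ := exists_nat_gt (max (1 / t0 + 1) ((2 + C * t0 ^ ((8:ℝ)/9)) / interaction R (zz i0 i1 t0)))
  have hN1 : 1 / t0 + 1 < (N:ℝ) := lt_of_le_of_lt (le_max_left _ _) hN
  have hN2 : (2 + C * t0 ^ ((8:ℝ)/9)) / interaction R (zz i0 i1 t0) < (N:ℝ) :=
    lt_of_le_of_lt (le_max_right _ _) hN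
  have hNge : (1:ℝ) ≤ N := by
    have : 0 < 1 / t0 := by positivity
    linarith
  have hNnat : 1 ≤ N := by exact_mod_cast hNge
  have hN9 : 1 ≤ N ^ 9 := Nat.one_le_pow _ _ hNnat
  have h1 := hind (N ^ 9 - 1)
  have hcast : ((N ^ 9 - 1 : ℕ) : ℝ) + 1 = (N:ℝ) ^ 9 := by
    rw [Nat.cast_sub hN9]; push_cast; ring
  rw [hcast] at h1
  have hbig : 1 ≤ (N:ℝ) ^ 9 * t0 := by
    have h2 : (N:ℝ) ≤ (N:ℝ) ^ 9 := le_self_pow₀ hNge (by norm_num)
    have h3 : 1 / t0 ≤ (N:ℝ) := by linarith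
    have h4 : 1 ≤ (N:ℝ) * t0 := by
      rw [div_le_iff₀ ht0] at h3; linarith
    nlinarith
  have h2 := hC _ hbig
  have h3 : ((N:ℝ) ^ 9 * t0) ^ ((8:ℝ)/9) = (N:ℝ) ^ 8 * t0 ^ ((8:ℝ)/9) := by
    rw [Real.mul_rpow (by positivity) ht0.le, ← Real.rpow_natCast, ← Real.rpow_mul (by positivity),
      ← Real.rpow_natCast]
    norm_num
  rw [h3] at h2
  rw [div_lt_iff₀ hpos] at hN2
  have h8 : (1:ℝ) ≤ (N:ℝ) ^ 8 := one_le_pow₀ hNge
  have h4 : (N:ℝ) ^ 9 * interaction R (zz i0 i1 t0) = (N:ℝ) ^ 8 * ((N:ℝ) * interaction R (zz i0 i1 t0)) := by ring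
  have h5 : (N:ℝ) ^ 8 * (2 + C * t0 ^ ((8:ℝ)/9)) < (N:ℝ) ^ 8 * ((N:ℝ) * interaction R (zz i0 i1 t0)) :=
    mul_lt_mul_of_pos_left hN2 (by positivity)
  nlinarith

end Pool.H85.MV.NotSuperadditive
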